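import Pool.Agent.Lib.MP_b07157_agCR.G0

/-!
# Faces: no cubic form
-/

noncomputable section

namespace MPb07157

open MvPolynomial

namespace CR

/-- The monomials `x_0²`, `x_0x_1²`, `x_0x_2²`, `x_0x_3²` have linearly independent exponents. By `smcLoc_of_faces`, `fin_cases`, `Fin.sum_univ_succ`; the weight conditions are linear (`wt4`, `omega`). -/
theorem smcLoc_f0 {R : MvPolynomial (Fin 4) ℂ} (hR : constantCoeff R = 0) (α β γ : ℂ) :
    SmcLoc (X 0 ^ 2 * (1 + R) + X 0 * (C α * X 1 ^ 2 + C β * X 2 ^ 2 + C γ * X 3 ^ 2)) := by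
  have key := smcLoc_of_faces hR (m := 3) ![1, α, β, γ]
    ![![2, 0, 0, 0], ![1, 2, 0, 0], ![1, 0, 2, 0], ![1, 0, 0, 2]]
    (by decide) rfl rfl (by decide) (by decide)
    (F := X 0 ^ 2 * (1 + R) + X 0 * (C α * X 1 ^ 2 + C β * X 2 ^ 2 + C γ * X 3 ^ 2))
  refine key (fun w _ N _ y _ hs => ?_) (fun x => ?_)
  · have h0 := (Fin.sum_univ_four _).symm.trans (hs 0)
    have h1 := (Fin.sum_univ_four _).symm.trans (hs 1)
    have h2 := (Fin.sum_univ_four _).symm.trans (hs 2)
    have h3 := (Fin.sum_univ_four _).symm.trans (hs 3)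
    simp only [Matrix.cons_val, Nat.cast_zero,
      Nat.cast_one, Nat.cast_ofNat, mul_zero, zero_add, add_zero, mul_one] at h0 h1 h2 h3
    have y1 : y 1 = 0 := by linear_combination (1 / 2 : ℂ) * h1
    have y2 : y 2 = 0 := by linear_combination (1 / 2 : ℂ) * h2
    have y3 : y 3 = 0 := by linear_combination (1 / 2 : ℂ) * h3
    have y0 : y 0 = 0 := by linear_combination (1 / 2 : ℂ) * (h0 - y1 - y2 - y3)
    intro a
    fin_cases a
    · exact y0
    · exact y1
    · exact y2
    · exact y3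
  · simp [Fin.sum_univ_succ]
    ring

end CR

end MPb07157
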