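import Pool.Agent.Lib.MP_b07157_agCR.M1
import Pool.Agent.Lib.MP_b07157_agCS.N1
import Pool.Agent.Lib.MP_b07157_agCR.N0

/-!
# No cubic form
-/

noncomputable section

namespace MPb07157

open MvPolynomial

namespace CR

open CS

namespace H0

theorem constantCoeff_eq_zero {R : MvPolynomial (Fin 4) ℂ} (hR : R.IsHomogeneous 1) :
    constantCoeff R = 0 := by
  rw [constantCoeff_eq]
  exact hR.coeff_eq_zero (by simp)

theorem eval_qf (k : Fin 6 → ℂ) (w : Fin 3 → ℂ) : eval w (qf k) =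
    k 0 * w 0 ^ 2 + k 1 * w 1 ^ 2 + k 2 * w 2 ^ 2 + k 3 * (w 1 * w 2) + k 4 * (w 0 * w 2) +
      k 5 * (w 0 * w 1) := by
  simp only [qf, map_mul, map_add, map_pow, eval_X, eval_C]

/-- Diagonalization. -/
theorem exists_diag (k : Fin 6 → ℂ) : ∃ (e : (Fin 3 → ℂ) ≃ₗ[ℂ] (Fin 3 → ℂ)) (α β γ : ℂ),
    ∀ w, eval (e w) (qf k) = eval w (qf ![α, β, γ, 0, 0, 0]) := by
  classical
  have : Invertible (2 : ℂ) := invertibleOfNonzero two_ne_zero
  let t : Matrix (Fin 3) (Fin 3) ℂ :=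
    !![k 0, k 5 / 2, k 4 / 2; k 5 / 2, k 1, k 3 / 2; k 4 / 2, k 3 / 2, k 2]
  let B : LinearMap.BilinForm ℂ (Fin 3 → ℂ) := Matrix.toBilin' t
  have hBa : ∀ x y, B x y = ∑ i, ∑ j, x i * t i j * y j := fun x y => Matrix.toBilin'_apply _ _ _
  have ht : ∀ i j, t i j = t j i := by
    intro i j
    fin_cases i <;> fin_cases j <;> rfl
  have hB0 : ∀ x y, B x y = B y x := by
    intro x y
    rw [hBa, hBa, Finset.sum_comm]
    refine Finset.sum_congr rfl fun i _ => Finset.sum_congr rfl fun j _ => ?_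
    rw [ht j i]
    ring
  have hB : LinearMap.IsSymm B := ⟨hB0⟩
  obtain ⟨v', hv'⟩ := LinearMap.BilinForm.exists_orthogonal_basis hB
  have hfr : Module.finrank ℂ (Fin 3 → ℂ) = 3 := by
    rw [Module.finrank_fintype_fun_eq_card, Fintype.card_fin]
  obtain ⟨v, hv⟩ : ∃ v : Module.Basis (Fin 3) ℂ (Fin 3 → ℂ), ∀ i j, i ≠ j → B (v i) (v j) = 0 := by
    refine ⟨v'.reindex (finCongr hfr), fun i j hij => ?_⟩
    rw [Module.Basis.reindex_apply, Module.Basis.reindex_apply]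
    exact hv' fun h => hij ((finCongr hfr).symm.injective h)
  refine ⟨v.equivFun.symm, B (v 0) (v 0), B (v 1) (v 1), B (v 2) (v 2), fun w => ?_⟩
  have h1 : ∀ x : Fin 3 → ℂ, eval x (qf k) = B x x := by
    intro x
    rw [eval_qf, hBa]
    simp only [Fin.sum_univ_three]
    show _ = x 0 * k 0 * x 0 + x 0 * (k 5 / 2) * x 1 + x 0 * (k 4 / 2) * x 2 +
      (x 1 * (k 5 / 2) * x 0 + x 1 * k 1 * x 1 + x 1 * (k 3 / 2) * x 2) +
      (x 2 * (k 4 / 2) * x 0 + x 2 * (k 3 / 2) * x 1 + x 2 * k 2 * x 2)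
    ring
  have h3 : B (∑ i : Fin 3, w i • v i) (∑ i : Fin 3, w i • v i) =
      B (v 0) (v 0) * w 0 ^ 2 + B (v 1) (v 1) * w 1 ^ 2 + B (v 2) (v 2) * w 2 ^ 2 := by
    rw [Fin.sum_univ_three]
    simp only [map_add, map_smul, LinearMap.add_apply, LinearMap.smul_apply, smul_eq_mul]
    rw [hv 0 1 (by decide), hv 0 2 (by decide), hv 1 0 (by decide), hv 1 2 (by decide),
      hv 2 0 (by decide), hv 2 1 (by decide)]
    ring
  rw [h1, Module.Basis.equivFun_symm_apply, h3, eval_qf]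
  show _ = B (v 0) (v 0) * w 0 ^ 2 + B (v 1) (v 1) * w 1 ^ 2 + B (v 2) (v 2) * w 2 ^ 2 +
    0 * (w 1 * w 2) + 0 * (w 0 * w 2) + 0 * (w 0 * w 1)
  ring

end H0

/-- Cubic polynomials with a critical zero of rank one whose cubic form is zero. -/
theorem smcLoc_c0 {R : MvPolynomial (Fin 4) ℂ} (hR : R.IsHomogeneous 1)
    {q : MvPolynomial (Fin 3) ℂ} (hq : q.IsHomogeneous 2) : SmcLoc (gR R q 0) := by
  obtain ⟨k, rfl⟩ := exists_qf hq
  obtain ⟨e, α, β, γ, he⟩ := H0.exists_diag k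
  obtain ⟨R', hR', h⟩ := gR_lin' hR (c := 0) (c' := 0) e (fun w => by rw [map_zero, map_zero]) he
  refine h.smcLoc ?_
  have h2 : gR R' (qf ![α, β, γ, 0, 0, 0]) 0 =
      X 0 ^ 2 * (1 + R') + X 0 * (C α * X 1 ^ 2 + C β * X 2 ^ 2 + C γ * X 3 ^ 2) := by
    simp [gR, qf]
  rw [h2]
  exact smcLoc_f0 (H0.constantCoeff_eq_zero hR') α β γ

end CR

end MPb07157
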