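import Pool.Agent.Lib.MP_b07157_agCR.G0

/-!
# Faces: triple line
-/

noncomputable section

namespace MPb07157

open MvPolynomial

namespace CR

/-- The monomials `x_0²`, `x_1³`, `x_0x_1x_2` or `x_0x_2²`, `x_0x_1x_3` or `x_0x_3²` (four cases): linearly independent exponents in each case. By `smcLoc_of_faces`, `fin_cases`, `Fin.sum_univ_succ`; the weight conditions are linear (`wt4`, `omega`). -/
theorem smcLoc_f3 {R : MvPolynomial (Fin 4) ℂ} (hR : constantCoeff R = 0) (α β γ δ : ℂ)
    (h1 : α = 0 ∨ γ = 0) (h2 : β = 0 ∨ δ = 0) :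
    SmcLoc (X 0 ^ 2 * (1 + R) + X 0 * (C α * (X 1 * X 2) + C β * (X 1 * X 3) + C γ * X 2 ^ 2 +
      C δ * X 3 ^ 2) + X 1 ^ 3) := by
  refine smcLoc_of_faces (m := 5) hR ![1, α, β, γ, δ, 1]
    ![![2, 0, 0, 0], ![1, 1, 1, 0], ![1, 1, 0, 1], ![1, 0, 2, 0], ![1, 0, 0, 2], ![0, 3, 0, 0]]
    (by decide) rfl rfl (by decide) (by decide) ?_ ?_
  · intro w _ N _ y hy hs
    have k1 : y 1 ≠ 0 → α ≠ 0 := fun h => (hy 1 h).1
    have k2 : y 2 ≠ 0 → β ≠ 0 := fun h => (hy 2 h).1
    have k3 : y 3 ≠ 0 → γ ≠ 0 := fun h => (hy 3 h).1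
    have k4 : y 4 ≠ 0 → δ ≠ 0 := fun h => (hy 4 h).1
    have s0 := hs 0
    have s1 := hs 1
    have s2 := hs 2
    have s3 := hs 3
    simp [Fin.sum_univ_succ] at s0 s1 s2 s3
    have f2 : y 1 + 2 * y 3 = 0 := by linear_combination s2
    have f3 : y 2 + 2 * y 4 = 0 := by linear_combination s3
    have z13 : y 1 = 0 ∧ y 3 = 0 := by
      rcases h1 with h | h
      · have h' : y 1 = 0 := by
          by_contra hc
          exact k1 hc h
        exact ⟨h', by linear_combination (f2 - h') / 2⟩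
      · have h' : y 3 = 0 := by
          by_contra hc
          exact k3 hc h
        exact ⟨by linear_combination f2 - 2 * h', h'⟩
    have z24 : y 2 = 0 ∧ y 4 = 0 := by
      rcases h2 with h | h
      · have h' : y 2 = 0 := by
          by_contra hc
          exact k2 hc h
        exact ⟨h', by linear_combination (f3 - h') / 2⟩
      · have h' : y 4 = 0 := by
          by_contra hc
          exact k4 hc h
        exact ⟨by linear_combination f3 - 2 * h', h'⟩
    obtain ⟨z1, z3⟩ := z13
    obtain ⟨z2, z4⟩ := z24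
    have z0 : y 0 = 0 := by linear_combination (s0 - z1 - z2 - z3 - z4) / 2
    have z5 : y 5 = 0 := by linear_combination (s1 - z1 - z2) / 3
    intro a
    fin_cases a
    · exact z0
    · exact z1
    · exact z2
    · exact z3
    · exact z4
    · exact z5
  · intro x
    simp [Fin.sum_univ_succ]
    ring

end CR

end MPb07157
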