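import Pool.Agent.Lib.MP_b07157_agCR.M1
import Pool.Agent.Lib.MP_b07157_agCS.N1
import Pool.Agent.Lib.MP_b07157_agCR.NQ

/-!
# Type Q
-/

noncomputable section

namespace MPb07157

open MvPolynomial

namespace CR

open CS

namespace HQ

private theorem cc0 {R' : MvPolynomial (Fin 4) ℂ} (hR' : R'.IsHomogeneous 1) :
    constantCoeff R' = 0 := by
  rw [constantCoeff_eq]
  by_contra h0
  have := hR' h0
  simp at this

end HQ

/-- The partial derivatives of `cQ` are `2x_0x_2`, `3x_1²`, `x_0²`; kill these monomials of `q`: `smcLoc_fQ`. (`exists_qf`; `gR_shift`; then the form is literally the one of the cited theorem, `MvPolynomial.funext`; `LinEq.smcLoc`.) -/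
theorem smcLoc_cQ {R : MvPolynomial (Fin 4) ℂ} (hR : R.IsHomogeneous 1)
    {q : MvPolynomial (Fin 3) ℂ} (hq : q.IsHomogeneous 2) : SmcLoc (gR R q cQ) := by
  have hc : (cQ).IsHomogeneous 3 := by
    unfold cQ
    refine (?_ : MvPolynomial.IsHomogeneous _ 3).add ?_
    · exact ((isHomogeneous_X _ _).pow 2).mul (isHomogeneous_X _ _)
    · exact (isHomogeneous_X ℂ (1 : Fin 3)).pow 3
  obtain ⟨k, rfl⟩ := exists_qf hq
  obtain ⟨R', hR', h⟩ := gR_shift hR hq hc ![-k 4 / 2, -k 1 / 3, -k 0]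
  refine h.smcLoc ?_
  have := smcLoc_fQ (HQ.cc0 hR') (k 5) (k 3) (k 2)
  convert this using 1
  apply MvPolynomial.funext
  intro x
  simp [gR, qf, cQ, Fin.sum_univ_succ, eval_rename, pderiv_X, Derivation.leibniz,
    Pi.single_apply, -mul_eq_mul_left_iff, -mul_eq_mul_right_iff]
  ring

end CR

end MPb07157
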