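import Pool.Agent.Lib.MP_b07157_agCR.M1
import Pool.Agent.Lib.MP_b07157_agCS.N1
import Pool.Agent.Lib.MP_b07157_agCR.NS

/-!
# Type S
-/

noncomputable section

namespace MPb07157

open MvPolynomial

namespace CR

open CS

namespace HS

private theorem cc0 {R' : MvPolynomial (Fin 4) ℂ} (hR' : R'.IsHomogeneous 1) :
    constantCoeff R' = 0 := by
  rw [constantCoeff_eq]
  by_contra h0
  have := hR' h0
  simp at this

end HS

/-- The partial derivatives of `cS` are `2x_0x_2 + x_1²`, `2x_0x_1`, `x_0²`; kill `x_1²`, `x_0x_1`, `x_0²` in `q`: `smcLoc_fS`. (`exists_qf`; `gR_shift`; then the form is literally the one of the cited theorem, `MvPolynomial.funext`; `LinEq.smcLoc`.) -/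
theorem smcLoc_cS {R : MvPolynomial (Fin 4) ℂ} (hR : R.IsHomogeneous 1)
    {q : MvPolynomial (Fin 3) ℂ} (hq : q.IsHomogeneous 2) : SmcLoc (gR R q cS) := by
  have hc : (cS).IsHomogeneous 3 := by
    unfold cS
    refine (?_ : MvPolynomial.IsHomogeneous _ 3).add ?_
    · exact ((isHomogeneous_X _ _).pow 2).mul (isHomogeneous_X _ _)
    · exact (isHomogeneous_X ℂ (0 : Fin 3)).mul ((isHomogeneous_X ℂ (1 : Fin 3)).pow 2)
  obtain ⟨k, rfl⟩ := exists_qf hq
  obtain ⟨R', hR', h⟩ := gR_shift hR hq hc ![-k 1, -k 5 / 2, -k 0]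
  refine h.smcLoc ?_
  have := smcLoc_fS (HS.cc0 hR') (k 4 - 2 * k 1) (k 3) (k 2)
  convert this using 1
  apply MvPolynomial.funext
  intro x
  simp [gR, qf, cS, Fin.sum_univ_succ, eval_rename, pderiv_X, Derivation.leibniz,
    Pi.single_apply, -mul_eq_mul_left_iff, -mul_eq_mul_right_iff]
  ring

end CR

end MPb07157
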