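import Pool.Agent.Lib.MP_b07157_agCR.G0

/-!
# Faces: type V, second case
-/

noncomputable section

namespace MPb07157

open MvPolynomial

namespace CR

/-- The monomials `x_0²`, `x_0x_1x_2`, `x_0x_2x_3`, `x_1²x_3` have linearly independent exponents. By `smcLoc_of_faces`, `fin_cases`, `Fin.sum_univ_succ`; the weight conditions are linear (`wt4`, `omega`). -/
theorem smcLoc_fVb {R : MvPolynomial (Fin 4) ℂ} (hR : constantCoeff R = 0) (α γ : ℂ) :
    SmcLoc (X 0 ^ 2 * (1 + R) + X 0 * (C α * (X 1 * X 2) + C γ * (X 2 * X 3)) +
      X 1 ^ 2 * X 3) := by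
  refine smcLoc_of_faces hR (m := 3) ![1, α, γ, 1]
    ![![2, 0, 0, 0], ![1, 1, 1, 0], ![1, 0, 1, 1], ![0, 2, 0, 1]] (by decide) rfl rfl
    (by decide) (by decide) (fun w hw N hN y hy hs => ?_) (fun x => ?_)
  · have h0 : y 0 * 2 + y 1 + y 2 = 0 := by
      have := hs 0
      simp [Fin.sum_univ_succ] at this
      linear_combination this
    have h1 : y 1 + y 3 * 2 = 0 := by
      have := hs 1
      simp [Fin.sum_univ_succ] at this
      linear_combination this
    have h2 : y 1 + y 2 = 0 := by
      have := hs 2
      simp [Fin.sum_univ_succ] at this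
      linear_combination this
    have h3 : y 2 + y 3 = 0 := by
      have := hs 3
      simp [Fin.sum_univ_succ] at this
      linear_combination this
    have y3 : y 3 = 0 := by linear_combination (h1 - h2 + h3) / 3
    intro a
    fin_cases a
    · show y 0 = 0
      linear_combination (h0 - h2) / 2
    · show y 1 = 0
      linear_combination h1 - 2 * y3
    · show y 2 = 0
      linear_combination h3 - y3
    · exact y3
  · simp [Fin.sum_univ_succ]
    ring

end CR

end MPb07157
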