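import Pool.Agent.Lib.MP_b07157_agCR.M1
import Pool.Agent.Lib.MP_b07157_agCS.N1
import Pool.Agent.Lib.MP_b07157_agCR.NVa
import Pool.Agent.Lib.MP_b07157_agCR.NVb

/-!
# Type V
-/

noncomputable section

namespace MPb07157

open MvPolynomial

namespace CR

open CS

theorem HV.qf_hom (k : Fin 6 → ℂ) : (qf k).IsHomogeneous 2 := by
  unfold qf
  refine IsHomogeneous.add (IsHomogeneous.add (IsHomogeneous.add (IsHomogeneous.add
    (IsHomogeneous.add ?_ ?_) ?_) ?_) ?_) ?_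
  · exact (isHomogeneous_X_pow _ _).C_mul _
  · exact (isHomogeneous_X_pow _ _).C_mul _
  · exact (isHomogeneous_X_pow _ _).C_mul _
  · exact ((isHomogeneous_X ℂ _).mul (isHomogeneous_X ℂ _)).C_mul _
  · exact ((isHomogeneous_X ℂ _).mul (isHomogeneous_X ℂ _)).C_mul _
  · exact ((isHomogeneous_X ℂ _).mul (isHomogeneous_X ℂ _)).C_mul _

theorem HV.cV_hom : cV.IsHomogeneous 3 := by
  unfold cV
  exact (isHomogeneous_X_pow _ _).mul (isHomogeneous_X ℂ _)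

theorem HV.pd0 (p : Fin 3 → ℂ) : eval p (pderiv 0 cV) = 2 * (p 0 * p 2) := by
  unfold cV
  rw [pderiv_mul, pderiv_pow, pderiv_X_self, pderiv_X_of_ne (by decide)]
  simp
  ring

theorem HV.pd1 (p : Fin 3 → ℂ) : eval p (pderiv 1 cV) = 0 := by
  unfold cV
  rw [pderiv_mul, pderiv_pow, pderiv_X_of_ne (by decide), pderiv_X_of_ne (by decide)]
  simp

theorem HV.pd2 (p : Fin 3 → ℂ) : eval p (pderiv 2 cV) = p 0 ^ 2 := by
  unfold cV
  rw [pderiv_mul, pderiv_pow, pderiv_X_of_ne (by decide), pderiv_X_self]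
  simp

/-- The shift. -/
theorem HV.shift {R : MvPolynomial (Fin 4) ℂ} (hR : R.IsHomogeneous 1) (k : Fin 6 → ℂ) :
    ∃ R' : MvPolynomial (Fin 4) ℂ, constantCoeff R' = 0 ∧ LinEq (gR R (qf k) cV)
      (X 0 ^ 2 * (1 + R') + X 0 * (C (k 1) * X 2 ^ 2 + C (k 2) * X 3 ^ 2 +
        C (k 3) * (X 2 * X 3) + C (k 5) * (X 1 * X 2)) + X 1 ^ 2 * X 3) := by
  obtain ⟨R', hR', h⟩ := gR_shift hR (HV.qf_hom k) HV.cV_hom ![-(k 4) / 2, 0, -(k 0)]
  have hc : constantCoeff R' = 0 := by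
    rw [constantCoeff_eq]
    exact hR'.coeff_eq_zero (by simp)
  refine ⟨R', hc, ?_⟩
  have he : gR R' (qf k + ∑ i, C ((![-(k 4) / 2, 0, -(k 0)] : Fin 3 → ℂ) i) * pderiv i cV) cV =
      X 0 ^ 2 * (1 + R') + X 0 * (C (k 1) * X 2 ^ 2 + C (k 2) * X 3 ^ 2 +
        C (k 3) * (X 2 * X 3) + C (k 5) * (X 1 * X 2)) + X 1 ^ 2 * X 3 := by
    refine MvPolynomial.funext fun w => ?_
    rw [M1.eval_gR, map_add, map_sum, Fin.sum_univ_three]
    simp only [map_mul, eval_C, HV.pd0, HV.pd1, HV.pd2]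
    have e1 : (w ∘ Fin.succ : Fin 3 → ℂ) 0 = w 1 := rfl
    have e2 : (w ∘ Fin.succ : Fin 3 → ℂ) 1 = w 2 := rfl
    have e3 : (w ∘ Fin.succ : Fin 3 → ℂ) 2 = w 3 := rfl
    have f0 : (![-(k 4) / 2, 0, -(k 0)] : Fin 3 → ℂ) 0 = -(k 4) / 2 := rfl
    have f1 : (![-(k 4) / 2, 0, -(k 0)] : Fin 3 → ℂ) 1 = 0 := rfl
    have f2 : (![-(k 4) / 2, 0, -(k 0)] : Fin 3 → ℂ) 2 = -(k 0) := rfl
    simp only [qf, cV, map_add, map_mul, map_pow, map_one, eval_C, eval_X, e1, e2, e3, f0, f1, f2]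
    ring
  rw [← he]
  exact h

theorem HV.caseA {R : MvPolynomial (Fin 4) ℂ} (hR : R.IsHomogeneous 1) {k : Fin 6 → ℂ}
    (hk : k 3 = 0) : SmcLoc (gR R (qf k) cV) := by
  obtain ⟨R', hc, h⟩ := HV.shift hR k
  refine h.smcLoc ?_
  have he : (X 0 ^ 2 * (1 + R') + X 0 * (C (k 1) * X 2 ^ 2 + C (k 2) * X 3 ^ 2 +
        C (k 3) * (X 2 * X 3) + C (k 5) * (X 1 * X 2)) + X 1 ^ 2 * X 3 :
          MvPolynomial (Fin 4) ℂ) =
      X 0 ^ 2 * (1 + R') + X 0 * (C (k 5) * (X 1 * X 2) + C (k 2) * X 3 ^ 2 +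
        C (k 1) * X 2 ^ 2) + X 1 ^ 2 * X 3 := by
    rw [hk, C_0]
    ring
  rw [he]
  exact smcLoc_fVa hc _ _ _

theorem HV.caseB {R : MvPolynomial (Fin 4) ℂ} (hR : R.IsHomogeneous 1) {k : Fin 6 → ℂ}
    (hk1 : k 1 = 0) (hk2 : k 2 = 0) : SmcLoc (gR R (qf k) cV) := by
  obtain ⟨R', hc, h⟩ := HV.shift hR k
  refine h.smcLoc ?_
  have he : (X 0 ^ 2 * (1 + R') + X 0 * (C (k 1) * X 2 ^ 2 + C (k 2) * X 3 ^ 2 +
        C (k 3) * (X 2 * X 3) + C (k 5) * (X 1 * X 2)) + X 1 ^ 2 * X 3 :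
          MvPolynomial (Fin 4) ℂ) =
      X 0 ^ 2 * (1 + R') + X 0 * (C (k 5) * (X 1 * X 2) + C (k 3) * (X 2 * X 3)) +
        X 1 ^ 2 * X 3 := by
    rw [hk1, hk2, C_0]
    ring
  rw [he]
  exact smcLoc_fVb hc _ _

/-- `x_1 → x_1 - s x_2`. -/
def HV.e (s : ℂ) : (Fin 3 → ℂ) ≃ₗ[ℂ] (Fin 3 → ℂ) where
  toFun w := ![w 0, w 1 - s * w 2, w 2]
  invFun w := ![w 0, w 1 + s * w 2, w 2]
  map_add' x y := by
    funext i
    fin_cases i
    · rfl
    · show (x 1 + y 1) - s * (x 2 + y 2) = (x 1 - s * x 2) + (y 1 - s * y 2)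
      ring
    · rfl
  map_smul' r x := by
    funext i
    fin_cases i
    · rfl
    · show (r * x 1) - s * (r * x 2) = r * (x 1 - s * x 2)
      ring
    · rfl
  left_inv x := by
    funext i
    fin_cases i
    · rfl
    · show (x 1 - s * x 2) + s * x 2 = x 1
      ring
    · rfl
  right_inv x := by
    funext i
    fin_cases i
    · rfl
    · show (x 1 + s * x 2) - s * x 2 = x 1
      ring
    · rfl

theorem HV.change {R : MvPolynomial (Fin 4) ℂ} (hR : R.IsHomogeneous 1) (k : Fin 6 → ℂ) (s : ℂ) :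
    ∃ R' : MvPolynomial (Fin 4) ℂ, R'.IsHomogeneous 1 ∧ LinEq (gR R (qf k) cV)
      (gR R' (qf ![k 0, k 1, k 1 * s ^ 2 - k 3 * s + k 2, k 3 - 2 * k 1 * s, k 4 - k 5 * s,
        k 5]) cV) := by
  refine gR_lin' hR (HV.e s) (fun w => ?_) fun w => ?_
  · simp only [cV, map_mul, map_pow, eval_X]
    rfl
  · have e0 : HV.e s w 0 = w 0 := rfl
    have e1 : HV.e s w 1 = w 1 - s * w 2 := rfl
    have e2 : HV.e s w 2 = w 2 := rfl
    obtain ⟨k', hk'⟩ : ∃ k' : Fin 6 → ℂ, k' = ![k 0, k 1, k 1 * s ^ 2 - k 3 * s + k 2,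
      k 3 - 2 * k 1 * s, k 4 - k 5 * s, k 5] := ⟨_, rfl⟩
    have f0 : k' 0 = k 0 := by rw [hk']; rfl
    have f1 : k' 1 = k 1 := by rw [hk']; rfl
    have f2 : k' 2 = k 1 * s ^ 2 - k 3 * s + k 2 := by rw [hk']; rfl
    have f3 : k' 3 = k 3 - 2 * k 1 * s := by rw [hk']; rfl
    have f4 : k' 4 = k 4 - k 5 * s := by rw [hk']; rfl
    have f5 : k' 5 = k 5 := by rw [hk']; rfl
    rw [← hk']
    simp only [qf, map_add, map_mul, map_pow, eval_C, eval_X, e0, e1, e2, f0, f1, f2, f3, f4, f5]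
    ring

/-- The derivatives of `cV` are `2x_0x_2`, `0`, `x_0²`, so `q = α x_0x_1 + β x_2² + γ x_1x_2 + δ x_1²` after a shift. If `δ ≠ 0`: the change `x_1 → x_1 - (γ/(2δ)) x_2` (`gR_lin'`, it fixes `cV`) and a shift killing `x_0x_2` give `smcLoc_fVa`. If `δ = 0`, `γ ≠ 0`: the change `x_1 → x_1 - (β/γ) x_2` and a shift give `smcLoc_fVb`. If `γ = δ = 0`: `smcLoc_fVa`. (`exists_qf`; `gR_shift`; then the form is literally the one of the cited theorem, `MvPolynomial.funext`; `LinEq.smcLoc`.) -/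
theorem smcLoc_cV {R : MvPolynomial (Fin 4) ℂ} (hR : R.IsHomogeneous 1)
    {q : MvPolynomial (Fin 3) ℂ} (hq : q.IsHomogeneous 2) : SmcLoc (gR R q cV) := by
  obtain ⟨k, rfl⟩ := exists_qf hq
  by_cases h1 : k 1 = 0
  · by_cases h3 : k 3 = 0
    · exact HV.caseA hR h3
    · obtain ⟨R', hR', h⟩ := HV.change hR k (k 2 / k 3)
      refine h.smcLoc (HV.caseB hR' h1 ?_)
      show k 1 * (k 2 / k 3) ^ 2 - k 3 * (k 2 / k 3) + k 2 = 0
      rw [h1]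
      field_simp
      ring
  · obtain ⟨R', hR', h⟩ := HV.change hR k (k 3 / (2 * k 1))
    refine h.smcLoc (HV.caseA hR' ?_)
    show k 3 - 2 * k 1 * (k 3 / (2 * k 1)) = 0
    field_simp
    ring

end CR

end MPb07157
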