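import Pool.Agent.Lib.MP_b07157_agCR.K2

/-!
# Ternary cubic forms with a critical point, III
-/

noncomputable section

namespace MPb07157

open MvPolynomial

namespace CR

open CS

namespace K3

/-- The values of `cU e`. -/
theorem eval_cU (e : Fin 4 → ℂ) (w : Fin 3 → ℂ) : eval w (cU e) = bc e (w 0) (w 1) := by
  simp [cU, bc]

/-- A change of the coordinates `x_0, x_1`. -/
theorem linEq_zero {e : Fin 4 → ℂ} {F : MvPolynomial (Fin 3) ℂ} {a b g d : ℂ}
    (hdet : a * d - b * g ≠ 0)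
    (h : ∀ w : Fin 3 → ℂ, bc e (a * w 0 + b * w 1) (g * w 0 + d * w 1) = eval w F) :
    LinEq (cU e) F := by
  refine LinEq.of_matrix (!![a, b, 0; g, d, 0; 0, 0, 1] : Matrix (Fin 3) (Fin 3) ℂ) ?_
    fun w => ?_
  · rw [Matrix.det_fin_three]
    simp only [Matrix.of_apply, Matrix.cons_val', Matrix.cons_val_zero, Matrix.cons_val_one,
      Matrix.cons_val]
    intro h0
    apply hdet
    linear_combination h0
  · rw [eval_cU]
    have e0 : (Matrix.mulVec (!![a, b, 0; g, d, 0; 0, 0, 1] : Matrix (Fin 3) (Fin 3) ℂ) w) 0 =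
        a * w 0 + b * w 1 := by
      simp [Matrix.mulVec, dotProduct, Fin.sum_univ_three]
    have e1 : (Matrix.mulVec (!![a, b, 0; g, d, 0; 0, 0, 1] : Matrix (Fin 3) (Fin 3) ℂ) w) 1 =
        g * w 0 + d * w 1 := by
      simp [Matrix.mulVec, dotProduct, Fin.sum_univ_three]
    rw [e0, e1, h]

end K3

/-- **Binary cubic forms** in three variables (`binary_cubic` of agCS/B2; the form `x_0² x_1` is `cV`
after exchanging `x_1` and `x_2`). -/
theorem binary_cases (e : Fin 4 → ℂ) :
    LinEq (cU e) (cU ![1, 0, 0, 1]) ∨ LinEq (cU e) cV ∨ LinEq (cU e) (cU ![1, 0, 0, 0]) ∨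
      cU e = 0 := by
  obtain ⟨a, b, g, d, hdet, h⟩ := binary_cubic e
  rcases h with h | h | h | h
  · refine Or.inl (K3.linEq_zero hdet fun w => ?_)
    rw [h, K3.eval_cU, bc]
    simp
  · refine Or.inr (Or.inl ?_)
    refine LinEq.of_matrix (!![a, 0, b; g, 0, d; 0, 1, 0] : Matrix (Fin 3) (Fin 3) ℂ) ?_
      fun w => ?_
    · rw [Matrix.det_fin_three]
      simp only [Matrix.of_apply, Matrix.cons_val', Matrix.cons_val_zero, Matrix.cons_val_one,
        Matrix.cons_val]
      intro h0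
      apply hdet
      linear_combination -h0
    · rw [K3.eval_cU]
      have e0 : (Matrix.mulVec (!![a, 0, b; g, 0, d; 0, 1, 0] : Matrix (Fin 3) (Fin 3) ℂ) w) 0 =
          a * w 0 + b * w 2 := by
        simp [Matrix.mulVec, dotProduct, Fin.sum_univ_three]
      have e1 : (Matrix.mulVec (!![a, 0, b; g, 0, d; 0, 1, 0] : Matrix (Fin 3) (Fin 3) ℂ) w) 1 =
          g * w 0 + d * w 2 := by
        simp [Matrix.mulVec, dotProduct, Fin.sum_univ_three]
      rw [e0, e1, h]
      simp [cV]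
  · refine Or.inr (Or.inr (Or.inl (K3.linEq_zero hdet fun w => ?_)))
    rw [h, K3.eval_cU, bc]
    simp
  · refine Or.inr (Or.inr (Or.inr ?_))
    refine MvPolynomial.funext fun w => ?_
    rw [K3.eval_cU, map_zero]
    have h1 := h ((d * w 0 - b * w 1) / (a * d - b * g)) ((-g * w 0 + a * w 1) / (a * d - b * g))
    have e0 : a * ((d * w 0 - b * w 1) / (a * d - b * g)) +
        b * ((-g * w 0 + a * w 1) / (a * d - b * g)) = w 0 := by
      rw [← mul_div_assoc, ← mul_div_assoc, ← add_div, div_eq_iff hdet]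
      ring
    have e1 : g * ((d * w 0 - b * w 1) / (a * d - b * g)) +
        d * ((-g * w 0 + a * w 1) / (a * d - b * g)) = w 1 := by
      rw [← mul_div_assoc, ← mul_div_assoc, ← add_div, div_eq_iff hdet]
      ring
    rw [e0, e1] at h1
    exact h1

/-- **Singular ternary cubic forms.** -/
theorem singular_cubic {c : MvPolynomial (Fin 3) ℂ} (hc : c.IsHomogeneous 3) {p : Fin 3 → ℂ}
    (hp : p ≠ 0) (hs : ∀ i, eval p (pderiv i c) = 0) :
    (∃ a b, LinEq c (cT a b)) ∨ LinEq c cQ ∨ LinEq c cS ∨ LinEq c cV ∨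
      LinEq c (cU ![1, 0, 0, 1]) ∨ LinEq c (cU ![1, 0, 0, 0]) ∨ c = 0 := by
  obtain ⟨s, e, h⟩ := exists_pencil hc hp hs
  by_cases h1 : s 1 ^ 2 = 4 * s 0 * s 2
  · by_cases h0 : s = 0
    · have h2 : (X 2 * (C (s 0) * X 0 ^ 2 + C (s 1) * (X 0 * X 1) + C (s 2) * X 1 ^ 2) + cU e :
          MvPolynomial (Fin 3) ℂ) = cU e := by
        rw [h0]
        simp
      rw [h2] at h
      rcases binary_cases e with h3 | h3 | h3 | h3
      · exact Or.inr (Or.inr (Or.inr (Or.inr (Or.inl (h.trans h3)))))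
      · exact Or.inr (Or.inr (Or.inr (Or.inl (h.trans h3))))
      · exact Or.inr (Or.inr (Or.inr (Or.inr (Or.inr (Or.inl (h.trans h3))))))
      · refine Or.inr (Or.inr (Or.inr (Or.inr (Or.inr (Or.inr ?_)))))
        rw [h3] at h
        obtain ⟨f, hf⟩ := h
        refine MvPolynomial.funext fun w => ?_
        have h4 := hf (f.symm w)
        rw [LinearEquiv.apply_symm_apply] at h4
        rw [h4, map_zero, map_zero]
    · rcases pencil_rank_one h1 h0 e with h3 | h3 | h3
      · exact Or.inr (Or.inl (h.trans h3))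
      · exact Or.inr (Or.inr (Or.inl (h.trans h3)))
      · exact Or.inr (Or.inr (Or.inr (Or.inl (h.trans h3))))
  · obtain ⟨a, b, h3⟩ := pencil_rank_two h1 e
    exact Or.inl ⟨a, b, h.trans h3⟩

end CR

end MPb07157
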