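import Pool.Agent.Lib.MP_b07157_agCR.Defs
import Pool.Agent.Lib.MP_b07157_agCS.B0
import Pool.Agent.Lib.MP_b07157_agE.EDefs

/-!
# The germ of a cubic polynomial at a critical zero of rank one
-/

noncomputable section

namespace MPb07157

open MvPolynomial

namespace CR

open CS

namespace R1

variable {n : ℕ}

private theorem r1_tdeg (p : Fin n → ℂ) (f : MvPolynomial (Fin n) ℂ) :
    (translate p f).totalDegree ≤ f.totalDegree := by
  classical
  unfold translate
  rw [aeval_def, eval₂_eq]
  refine totalDegree_finsetSum_le fun v hv => ?_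
  refine (totalDegree_mul _ _).trans ?_
  rw [algebraMap_eq, totalDegree_C, zero_add]
  refine (totalDegree_finsetProd _ _).trans ?_
  refine le_trans (Finset.sum_le_sum fun i _ => ?_) (le_totalDegree hv)
  refine (totalDegree_pow _ _).trans ?_
  refine le_trans (Nat.mul_le_mul_left _ ?_) (mul_one _).le
  refine (totalDegree_add _ _).trans ?_
  rw [totalDegree_X, totalDegree_C]
  exact max_le le_rfl zero_le_one

private theorem r1_coeff_zero (f : MvPolynomial (Fin n) ℂ) (p : Fin n → ℂ) :
    coeff 0 (translate p f) = eval p f := by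
  have h : constantCoeff (translate p f) = eval p f := by
    unfold translate
    rw [aeval_def, hom_eval₂]
    simp [eval_eq', eval₂_eq']
  rwa [constantCoeff_eq] at h

private theorem r1_pderiv (p : Fin n → ℂ) (i : Fin n) (g : MvPolynomial (Fin n) ℂ) :
    pderiv i (translate p g) = translate p (pderiv i g) := by
  unfold translate
  induction g using MvPolynomial.induction_on with
  | C a => simp
  | add a b ha hb => simp only [map_add, ha, hb]
  | mul_X a j ha =>
    rw [map_mul, Derivation.leibniz, Derivation.leibniz, ha, aeval_X, map_add, map_add, pderiv_C,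
      add_zero, smul_eq_mul, smul_eq_mul, smul_eq_mul, smul_eq_mul, map_mul, map_mul, aeval_X]
    congr 2
    by_cases hij : i = j
    · subst hij
      simp
    · rw [pderiv_X_of_ne (Ne.symm hij)]
      simp

private theorem r1_comm (i j : Fin n) (g : MvPolynomial (Fin n) ℂ) :
    pderiv i (pderiv j g) = pderiv j (pderiv i g) := by
  ext v
  rw [coeff_pderiv, coeff_pderiv, coeff_pderiv, coeff_pderiv, add_right_comm]
  by_cases h : i = j
  · subst h
    ring_nf
  · rw [Finsupp.add_apply, Finsupp.add_apply, Finsupp.single_eq_of_ne (Ne.symm h),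
      Finsupp.single_eq_of_ne h]
    ring

private theorem r1_hom3 {F : MvPolynomial (Fin n) ℂ} (hd : F.totalDegree ≤ 3)
    (h0 : coeff 0 F = 0) (h1 : ∀ i, coeff 0 (pderiv i F) = 0)
    (h2 : ∀ i j, coeff 0 (pderiv i (pderiv j F)) = 0) : F.IsHomogeneous 3 := by
  classical
  intro v hv
  have hle : v.degree ≤ 3 := by
    have h := le_totalDegree (mem_support_iff.2 hv)
    rw [Finsupp.degree_eq_sum]
    rw [Finsupp.sum_fintype _ _ (fun _ => rfl)] at h
    exact h.trans hd
  have hgoal : v.degree = 3 := by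
    by_contra hne
    have hlt : v.degree < 3 := lt_of_le_of_ne hle hne
    by_cases hv0 : v = 0
    · rw [hv0] at hv
      exact hv h0
    obtain ⟨i, hi⟩ : ∃ i, v i ≠ 0 := by
      by_contra hcon
      push Not at hcon
      exact hv0 (Finsupp.ext hcon)
    obtain ⟨w, hw⟩ : ∃ w : Fin n →₀ ℕ, v = w + Finsupp.single i 1 := by
      refine ⟨v - Finsupp.single i 1, ?_⟩
      rw [tsub_add_cancel_of_le]
      exact Finsupp.single_le_iff.2 (Nat.one_le_iff_ne_zero.2 hi)
    have hcw : coeff w (pderiv i F) ≠ 0 := by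
      rw [coeff_pderiv, ← hw]
      exact mul_ne_zero hv (by exact_mod_cast Nat.succ_ne_zero (w i))
    have hdw : w.degree + 1 = v.degree := by
      rw [hw, map_add, Finsupp.degree_single]
    by_cases hw0 : w = 0
    · rw [hw0] at hcw
      exact hcw (h1 i)
    obtain ⟨j, hj⟩ : ∃ j, w j ≠ 0 := by
      by_contra hcon
      push Not at hcon
      exact hw0 (Finsupp.ext hcon)
    obtain ⟨z, hz⟩ : ∃ z : Fin n →₀ ℕ, w = z + Finsupp.single j 1 := by
      refine ⟨w - Finsupp.single j 1, ?_⟩
      rw [tsub_add_cancel_of_le]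
      exact Finsupp.single_le_iff.2 (Nat.one_le_iff_ne_zero.2 hj)
    have hcz : coeff z (pderiv j (pderiv i F)) ≠ 0 := by
      rw [coeff_pderiv, ← hz]
      exact mul_ne_zero hcw (by exact_mod_cast Nat.succ_ne_zero (z j))
    have hdz : z.degree + 1 = w.degree := by
      rw [hz, map_add, Finsupp.degree_single]
    have hz0 : z = 0 := by
      have : z.degree = 0 := by omega
      exact (Finsupp.degree_eq_zero_iff z).1 this
    rw [hz0] at hcz
    exact hcz (h2 j i)
  rw [Finsupp.weight_apply, Finsupp.sum_fintype _ _ (fun _ => by simp)]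
  rw [Finsupp.degree_eq_sum] at hgoal
  simpa using hgoal

/-- the decomposition of a cubic form in four variables -/
private theorem r1_split {G : MvPolynomial (Fin 4) ℂ} (hG : G.IsHomogeneous 3) :
    ∃ (R : MvPolynomial (Fin 4) ℂ) (q c : MvPolynomial (Fin 3) ℂ), R.IsHomogeneous 1 ∧
      q.IsHomogeneous 2 ∧ c.IsHomogeneous 3 ∧
      G = X 0 ^ 2 * R + X 0 * rename Fin.succ q + rename Fin.succ c := by
  set P := finSuccEquiv ℂ 3 G with hP
  have hr0 : (P.coeff 3).IsHomogeneous 0 := hG.finSuccEquiv_coeff_isHomogeneous 3 0 rfl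
  have hr1 : (P.coeff 2).IsHomogeneous 1 := hG.finSuccEquiv_coeff_isHomogeneous 2 1 rfl
  have hq : (P.coeff 1).IsHomogeneous 2 := hG.finSuccEquiv_coeff_isHomogeneous 1 2 rfl
  have hc : (P.coeff 0).IsHomogeneous 3 := hG.finSuccEquiv_coeff_isHomogeneous 0 3 rfl
  have hdeg : P.natDegree < 4 := by
    rw [hP, natDegree_finSuccEquiv]
    have h1 := degreeOf_le_totalDegree G 0
    have h2 := hG.totalDegree_le
    omega
  refine ⟨rename Fin.succ (P.coeff 2) + X 0 * rename Fin.succ (P.coeff 3), P.coeff 1, P.coeff 0,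
    ?_, hq, hc, ?_⟩
  · refine IsHomogeneous.add (hr1.rename_isHomogeneous) ?_
    exact (isHomogeneous_X ℂ 0).mul (hr0.rename_isHomogeneous)
  · apply MvPolynomial.funext
    intro w
    have hw : w = Fin.cons (w 0) (fun i => w i.succ) := (Fin.cons_self_tail w).symm
    rw [hw, eval_eq_eval_mv_eval', ← hP]
    have hnd : (Polynomial.map (eval fun i : Fin 3 => w i.succ) P).natDegree < 4 :=
      lt_of_le_of_lt Polynomial.natDegree_map_le hdeg
    rw [Polynomial.eval_eq_sum_range' hnd]
    simp only [Finset.sum_range_succ, Finset.sum_range_zero, Polynomial.coeff_map, map_add,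
      map_mul, map_pow, eval_X, eval_rename, Fin.cons_zero]
    have hcomp : ((Fin.cons (w 0) (fun i : Fin 3 => w i.succ) : Fin 4 → ℂ) ∘ Fin.succ) =
        fun i : Fin 3 => w i.succ := by
      funext i
      rfl
    rw [hcomp]
    ring

end R1

open R1 in
/-- **The germ at a critical zero of rank one.** `F = translate p f` has degree at most three, no
constant and no linear part, and its quadratic part is `(1/2) ∑ H_ij x_i x_j` with the Hessian matrix
`H` of rank one, `H = l lᵀ` (`exists_of_rank_one`, agCS/B0). Choose linear coordinates with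
`x_0 = (1/√2) ∑ l_i x_i`; then `F = x_0² + (cubic form)`, and the cubic form is
`x_0² R + x_0 q(x_1,x_2,x_3) + c(x_1,x_2,x_3)`. -/
theorem exists_gR {f : MvPolynomial (Fin 4) ℂ} (hd : f.totalDegree ≤ 3) {p : Fin 4 → ℂ}
    (h0 : eval p f = 0) (h1 : ∀ i, eval p (pderiv i f) = 0) (hr : (YG.hessAt f p).rank = 1) :
    ∃ (R : MvPolynomial (Fin 4) ℂ) (q c : MvPolynomial (Fin 3) ℂ), R.IsHomogeneous 1 ∧
      q.IsHomogeneous 2 ∧ c.IsHomogeneous 3 ∧ LinEq (translate p f) (gR R q c) := by
  have hsymm : (YG.hessAt f p).IsSymm := by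
    ext i j
    rw [Matrix.transpose_apply]
    unfold YG.hessAt
    rw [Matrix.of_apply, Matrix.of_apply, R1.r1_comm]
  obtain ⟨l₀, hl₀, hl⟩ := exists_of_rank_one hsymm hr
  obtain ⟨s, hs⟩ := IsAlgClosed.exists_pow_nat_eq (2 : ℂ) (n := 2) (by norm_num)
  have hs0 : s ≠ 0 := by
    rintro rfl
    norm_num at hs
  -- `l = l₀ / √2`
  set l : Fin 4 → ℂ := fun i => l₀ i / s with hldef
  have hlne : l ≠ 0 := by
    intro h
    apply hl₀
    funext i
    have h2 := congrFun h i
    rw [hldef] at h2
    simpa [hs0] using h2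
  have hH : ∀ i j, eval p (pderiv i (pderiv j f)) = 2 * (l i * l j) := by
    intro i j
    have h2 := hl i j
    unfold YG.hessAt at h2
    rw [Matrix.of_apply] at h2
    rw [h2, hldef, ← hs]
    field_simp
  set L : MvPolynomial (Fin 4) ℂ := ∑ i, C (l i) * X i with hL
  have hdL : ∀ i, pderiv i L = C (l i) := by
    intro i
    rw [hL, map_sum]
    rw [Finset.sum_eq_single i]
    · simp
    · intro j _ hj
      rw [Derivation.leibniz, pderiv_X_of_ne hj]
      simp
    · intro h
      exact absurd (Finset.mem_univ _) h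
  have hcL : coeff 0 L = 0 := by
    rw [← constantCoeff_eq, hL, map_sum]
    simp
  set F := translate p f with hF
  have hcub : (F - L ^ 2).IsHomogeneous 3 := by
    have hLd : (L ^ 2).totalDegree ≤ 3 := by
      refine (totalDegree_pow _ _).trans ?_
      have h2 : L.totalDegree ≤ 1 := by
        rw [hL]
        refine totalDegree_finsetSum_le fun i _ => ?_
        refine (totalDegree_mul _ _).trans ?_
        rw [totalDegree_C, totalDegree_X]
      omega
    refine r1_hom3 ((totalDegree_sub _ _).trans (max_le ((r1_tdeg p f).trans hd) hLd)) ?_ ?_ ?_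
    · rw [coeff_sub, hF, r1_coeff_zero, h0, ← constantCoeff_eq, map_pow, constantCoeff_eq, hcL]
      ring
    · intro i
      rw [map_sub, coeff_sub, hF, r1_pderiv, r1_coeff_zero, h1, pow_two, Derivation.leibniz, hdL,
        smul_eq_mul, ← constantCoeff_eq, map_add, map_mul, constantCoeff_eq, hcL]
      ring
    · intro i j
      rw [map_sub, map_sub, coeff_sub, hF, r1_pderiv, r1_pderiv, r1_coeff_zero, hH, pow_two,
        Derivation.leibniz, hdL, smul_eq_mul, map_add, Derivation.leibniz, hdL, pderiv_C,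
        smul_zero, zero_add, smul_eq_mul]
      rw [← C_mul, ← C_add, coeff_zero_C]
      ring
  -- coordinates
  obtain ⟨v, hv0, hlv⟩ : ∃ v : Fin 4 → ℂ, v ≠ 0 ∧ ∑ i, l i * v i = 0 := by
    by_cases h2 : l 0 = 0
    · refine ⟨Pi.single 0 1, by simp, ?_⟩
      rw [Finset.sum_eq_single 0]
      · rw [h2, zero_mul]
      · intro j _ hj
        rw [Pi.single_eq_of_ne hj, mul_zero]
      · intro h
        exact absurd (Finset.mem_univ _) h
    · refine ⟨![l 1, -l 0, 0, 0], ?_, ?_⟩
      · intro h
        have h3 := congrFun h 1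
        simp at h3
        exact h2 h3
      · simp [Fin.sum_univ_four]
        ring
  obtain ⟨b, hb3, hb0, hb1, hb2⟩ := exists_basis_of_form hlne hv0 hlv
  have hLe : ∀ w : Fin 4 → ℂ, eval (b.equivFun.symm w) L = w 0 := by
    intro w
    rw [hL, map_sum]
    have h2 : ∀ i, b.equivFun.symm w i = ∑ j, w j * b j i := by
      intro i
      rw [Module.Basis.equivFun_symm_apply, Finset.sum_apply]
      rfl
    simp only [map_mul, eval_C, eval_X, h2, Finset.mul_sum]
    rw [Finset.sum_comm]
    have h3 : ∀ j, ∑ i, l i * (w j * b j i) = w j * ∑ i, l i * b j i := by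
      intro j
      rw [Finset.mul_sum]
      exact Finset.sum_congr rfl fun i _ => by ring
    simp only [h3]
    rw [Fin.sum_univ_four, hb0, hb1, hb2, hb3, hlv]
    ring
  set G : MvPolynomial (Fin 4) ℂ :=
    aeval (fun i => ∑ j, C (b j i) * X j : Fin 4 → MvPolynomial (Fin 4) ℂ) (F - L ^ 2) with hG
  have hGe : ∀ w, eval w G = eval (b.equivFun.symm w) (F - L ^ 2) := by
    intro w
    have h2 : ∀ i, eval w ((∑ j, C (b j i) * X j : MvPolynomial (Fin 4) ℂ)) =
        b.equivFun.symm w i := by
      intro i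
      rw [Module.Basis.equivFun_symm_apply, Finset.sum_apply, map_sum]
      refine Finset.sum_congr rfl fun j _ => ?_
      rw [map_mul, eval_C, eval_X, Pi.smul_apply, smul_eq_mul, mul_comm]
    rw [hG]
    generalize F - L ^ 2 = K
    induction K using MvPolynomial.induction_on with
    | C a => simp
    | add a b ha hb => simp only [map_add, ha, hb]
    | mul_X a i ha => rw [map_mul, map_mul, map_mul, ha, aeval_X, h2, eval_X]
  have hGh : G.IsHomogeneous 3 := by
    have h2 : ∀ i, ((∑ j, C (b j i) * X j : MvPolynomial (Fin 4) ℂ)).IsHomogeneous 1 := by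
      intro i
      refine IsHomogeneous.sum _ _ _ fun j _ => ?_
      exact isHomogeneous_C_mul_X _ _
    have h3 := hcub.aeval (fun i => ∑ j, C (b j i) * X j : Fin 4 → MvPolynomial (Fin 4) ℂ) h2
    rw [one_mul] at h3
    exact h3
  obtain ⟨R, q, c, hR, hq, hc, hGs⟩ := r1_split hGh
  refine ⟨R, q, c, hR, hq, hc, b.equivFun.symm, fun w => ?_⟩
  have h2 : F = L ^ 2 + (F - L ^ 2) := by ring
  have h3 : gR R q c = X 0 ^ 2 + G := by
    rw [hGs]
    unfold gR
    ring
  rw [h3, map_add, hGe]
  conv_lhs => rw [h2]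
  rw [map_add, map_pow, hLe, map_pow, eval_X]

end CR

end MPb07157
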