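import Pool.Agent.Lib.MP_b07157_agCR.Defs
import Pool.Agent.Lib.MP_b07157_agI.SqM

/-!
# Smooth cubic forms
-/

noncomputable section

namespace MPb07157

open MvPolynomial

namespace CR

open CS

namespace R2

theorem initialPart_eq_of_split {n : ℕ} {P Q : MvPolynomial (Fin n) ℂ} {w : Fin n → ℕ} {N : ℕ}
    (hP : ∀ v ∈ P.support, ∑ j, w j * v j = N) (hQ : ∀ v ∈ Q.support, N < ∑ j, w j * v j)
    (hne : P ≠ 0) : initialPart (P + Q) w = P := by
  classical
  have h1 : ∀ v ∈ (P + Q).support, v ∈ P.support ∨ v ∈ Q.support := by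
    intro v hv
    by_contra hcon
    push Not at hcon
    rw [mem_support_iff, coeff_add, notMem_support_iff.1 hcon.1, notMem_support_iff.1 hcon.2,
      add_zero] at hv
    exact hv rfl
  have h2 : ∀ v ∈ P.support, coeff v (P + Q) = coeff v P := by
    intro v hv
    have h3 : v ∉ Q.support := fun h => by
      have e1 := hP v hv
      have e2 := hQ v h
      omega
    rw [coeff_add, notMem_support_iff.1 h3, add_zero]
  have h3 : ∀ v ∈ (P + Q).support, N ≤ ∑ j, w j * v j := by
    intro v hv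
    rcases h1 v hv with h | h
    · exact (hP v h).ge
    · exact (hQ v h).le
  ext v
  unfold initialPart
  rw [coeff_sum]
  simp only [coeff_monomial]
  rw [Finset.sum_ite_eq']
  by_cases hv : v ∈ P.support
  · rw [if_pos, h2 v hv]
    rw [Finset.mem_filter]
    refine ⟨?_, fun u hu => by rw [hP v hv]; exact h3 u hu⟩
    rw [mem_support_iff, h2 v hv]
    exact mem_support_iff.1 hv
  · rw [if_neg, notMem_support_iff.1 hv]
    rw [Finset.mem_filter]
    rintro ⟨h4, h5⟩
    obtain ⟨u, hu⟩ := support_nonempty.2 hne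
    have h6 : u ∈ (P + Q).support := by
      rw [mem_support_iff, h2 u hu]
      exact mem_support_iff.1 hu
    have h7 := h5 u h6
    have h8 := hP u hu
    have h9 := hQ v ((h1 v h4).resolve_left hv)
    omega

theorem wt_rename {a : MvPolynomial (Fin 3) ℂ} {k : ℕ} (ha : a.IsHomogeneous k)
    {v : Fin 4 →₀ ℕ} (hv : v ∈ (rename Fin.succ a).support) :
    ∑ j, (![3, 2, 2, 2] : Fin 4 → ℕ) j * v j = 2 * k := by
  classical
  rw [support_rename_of_injective (Fin.succ_injective 3), Finset.mem_image] at hv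
  obtain ⟨u, hu, rfl⟩ := hv
  have h1 : u.degree = k := by
    by_contra hne
    exact (mem_support_iff.1 hu) (ha.coeff_eq_zero hne)
  rw [Finsupp.degree_eq_sum, Fin.sum_univ_three] at h1
  rw [Fin.sum_univ_succ, Finsupp.mapDomain_notin_range _ _ (by
    rintro ⟨j, hj⟩
    exact Fin.succ_ne_zero j hj), mul_zero, zero_add, Fin.sum_univ_three]
  rw [Finsupp.mapDomain_apply (Fin.succ_injective 3), Finsupp.mapDomain_apply
    (Fin.succ_injective 3), Finsupp.mapDomain_apply (Fin.succ_injective 3)]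
  simp only [Matrix.cons_val_succ]
  simp only [Matrix.cons_val_zero, Matrix.cons_val_one, Matrix.cons_val]
  omega

theorem wt_add (a b : Fin 4 →₀ ℕ) : ∑ j, (![3, 2, 2, 2] : Fin 4 → ℕ) j * (a + b) j =
    ∑ j, (![3, 2, 2, 2] : Fin 4 → ℕ) j * a j + ∑ j, (![3, 2, 2, 2] : Fin 4 → ℕ) j * b j := by
  rw [← Finset.sum_add_distrib]
  exact Finset.sum_congr rfl fun j _ => by rw [Finsupp.add_apply, mul_add]

theorem wt_single (k : ℕ) : ∑ j, (![3, 2, 2, 2] : Fin 4 → ℕ) j * (Finsupp.single 0 k : Fin 4 →₀ ℕ) j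
    = 3 * k := by
  rw [Finset.sum_eq_single 0]
  · rw [Finsupp.single_eq_same]
    rfl
  · intro j _ hj
    rw [Finsupp.single_eq_of_ne hj, mul_zero]
  · intro h
    exact absurd (Finset.mem_univ _) h

theorem support_X_pow_mul {k : ℕ} {a : MvPolynomial (Fin 4) ℂ} {v : Fin 4 →₀ ℕ}
    (hv : v ∈ (X 0 ^ k * a).support) : ∃ u ∈ a.support, v = Finsupp.single 0 k + u := by
  classical
  have h1 := support_mul _ _ hv
  obtain ⟨b, hb, u, hu, h2⟩ := Finset.mem_add.1 h1
  rw [support_X_pow, Finset.mem_singleton] at hb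
  exact ⟨u, hu, by rw [← h2, hb]⟩

end R2

/-- **No critical point outside the origin**: `SmcLoc.of_sqh` (agI/SqM) with the weights
`(3, 2, 2, 2)`: the initial part is `x_0² + c(x_1, x_2, x_3)`, whose only critical point is the
origin. -/
theorem smcLoc_smooth {R : MvPolynomial (Fin 4) ℂ} (hR : R.IsHomogeneous 1)
    {q c : MvPolynomial (Fin 3) ℂ} (hq : q.IsHomogeneous 2) (hc : c.IsHomogeneous 3)
    (hs : ∀ p : Fin 3 → ℂ, p ≠ 0 → ∃ i, eval p (pderiv i c) ≠ 0) : SmcLoc (gR R q c) := by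
  classical
  have he : gR R q c = (X 0 ^ 2 + rename Fin.succ c) +
      (X 0 ^ 2 * R + X 0 ^ 1 * rename Fin.succ q) := by
    unfold gR
    ring
  obtain ⟨P, hPd⟩ : ∃ P, P = X 0 ^ 2 + (rename Fin.succ c : MvPolynomial (Fin 4) ℂ) := ⟨_, rfl⟩
  obtain ⟨Q, hQd⟩ : ∃ Q, Q = X 0 ^ 2 * R + X 0 ^ 1 * (rename Fin.succ q :
    MvPolynomial (Fin 4) ℂ) := ⟨_, rfl⟩
  have hP : ∀ v ∈ P.support, ∑ j, (![3, 2, 2, 2] : Fin 4 → ℕ) j * v j = 6 := by
    intro v hv
    rw [hPd] at hv
    rcases Finset.mem_union.1 (support_add hv) with h | h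
    · rw [support_X_pow, Finset.mem_singleton] at h
      rw [h, R2.wt_single]
    · rw [R2.wt_rename hc h]
  have hQ : ∀ v ∈ Q.support, 6 < ∑ j, (![3, 2, 2, 2] : Fin 4 → ℕ) j * v j := by
    intro v hv
    rw [hQd] at hv
    rcases Finset.mem_union.1 (support_add hv) with h | h
    · obtain ⟨u, hu, rfl⟩ := R2.support_X_pow_mul h
      rw [R2.wt_add, R2.wt_single]
      have h1 : u.degree = 1 := by
        by_contra hne
        exact (mem_support_iff.1 hu) (hR.coeff_eq_zero hne)
      rw [Finsupp.degree_eq_sum, Fin.sum_univ_four] at h1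
      have h2 : ∑ j, (![3, 2, 2, 2] : Fin 4 → ℕ) j * u j = 3 * u 0 + 2 * u 1 + 2 * u 2 + 2 * u 3 := by
        rw [Fin.sum_univ_four]
        rfl
      rw [h2]
      omega
    · obtain ⟨u, hu, rfl⟩ := R2.support_X_pow_mul h
      rw [R2.wt_add, R2.wt_single, R2.wt_rename hq hu]
      norm_num
  have hpd0 : pderiv 0 (rename Fin.succ c : MvPolynomial (Fin 4) ℂ) = 0 := by
    refine pderiv_eq_zero_of_notMem_vars fun h => ?_
    obtain ⟨j, _, hj⟩ := Finset.mem_image.1 (vars_rename _ _ h)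
    exact Fin.succ_ne_zero j hj
  have hgrad : ∀ p : Fin 4 → ℂ, p ≠ 0 → ∃ i, eval p (pderiv i P) ≠ 0 := by
    intro p hp
    by_cases hp0 : p 0 = 0
    · have hp' : (p ∘ Fin.succ) ≠ 0 := by
        intro h
        apply hp
        funext j
        refine Fin.cases hp0 (fun i => ?_) j
        exact congrFun h i
      obtain ⟨i, hi⟩ := hs _ hp'
      refine ⟨i.succ, ?_⟩
      rw [hPd, map_add, pderiv_pow, pderiv_X_of_ne (Fin.succ_ne_zero i).symm, mul_zero, zero_add,
        pderiv_rename (Fin.succ_injective 3), eval_rename]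
      exact hi
    · refine ⟨0, ?_⟩
      rw [hPd, map_add, hpd0, add_zero, pderiv_pow, pderiv_X_self]
      simpa using hp0
  have hPne : P ≠ 0 := by
    rintro h
    obtain ⟨i, hi⟩ := hgrad (fun _ => 1) (fun h => one_ne_zero (congrFun h 0))
    rw [h, map_zero, map_zero] at hi
    exact hi rfl
  rw [he, ← hPd, ← hQd]
  have hinit := R2.initialPart_eq_of_split hP hQ hPne
  have hsup : ∀ v ∈ (P + Q).support, 6 ≤ ∑ j, (![3, 2, 2, 2] : Fin 4 → ℕ) j * v j := by
    intro v hv
    rcases Finset.mem_union.1 (support_add hv) with h | h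
    · exact (hP v h).ge
    · exact (hQ v h).le
  refine SmcLoc.of_sqh (w := ![3, 2, 2, 2]) (by intro i; fin_cases i <;> decide) ?_ ?_ ?_
  · rw [hinit]
    exact hgrad
  · intro h
    rw [h] at hinit
    have h1 : initialPart (0 : MvPolynomial (Fin 4) ℂ) ![3, 2, 2, 2] = 0 := by
      unfold initialPart
      simp
    rw [h1] at hinit
    exact hPne hinit.symm
  · by_contra h
    have h1 := hsup 0 (mem_support_iff.2 h)
    simp at h1

end CR

end MPb07157
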