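import Pool.Agent.Lib.MP_b07157_agCR.HT
import Pool.Agent.Lib.MP_b07157_agCR.HQ
import Pool.Agent.Lib.MP_b07157_agCR.HS
import Pool.Agent.Lib.MP_b07157_agCR.HV
import Pool.Agent.Lib.MP_b07157_agCR.HU
import Pool.Agent.Lib.MP_b07157_agCR.H3
import Pool.Agent.Lib.MP_b07157_agCR.H0
import Pool.Agent.Lib.MP_b07157_agCR.K3
import Pool.Agent.Lib.MP_b07157_agCR.R1
import Pool.Agent.Lib.MP_b07157_agCR.R2

/-!
# The germs of cubic polynomials in four variables at the critical zeros of rank one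
-/

noncomputable section

namespace MPb07157

open MvPolynomial

namespace CR

open CS

theorem smcLoc_gR {R : MvPolynomial (Fin 4) ℂ} (hR : R.IsHomogeneous 1)
    {q c : MvPolynomial (Fin 3) ℂ} (hq : q.IsHomogeneous 2) (hc : c.IsHomogeneous 3) :
    SmcLoc (gR R q c) := by
  by_cases hs : ∀ p : Fin 3 → ℂ, p ≠ 0 → ∃ i, eval p (pderiv i c) ≠ 0
  · exact smcLoc_smooth hR hq hc hs
  push Not at hs
  obtain ⟨p, hp, hs⟩ := hs
  rcases singular_cubic hc hp hs with ⟨a, b, h⟩ | h | h | h | h | h | h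
  · obtain ⟨R', q', hR', hq', h'⟩ := gR_lin hR hq h
    exact h'.smcLoc (smcLoc_cT hR' hq' a b)
  · obtain ⟨R', q', hR', hq', h'⟩ := gR_lin hR hq h
    exact h'.smcLoc (smcLoc_cQ hR' hq')
  · obtain ⟨R', q', hR', hq', h'⟩ := gR_lin hR hq h
    exact h'.smcLoc (smcLoc_cS hR' hq')
  · obtain ⟨R', q', hR', hq', h'⟩ := gR_lin hR hq h
    exact h'.smcLoc (smcLoc_cV hR' hq')
  · obtain ⟨R', q', hR', hq', h'⟩ := gR_lin hR hq h
    exact h'.smcLoc (smcLoc_cU hR' hq')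
  · obtain ⟨R', q', hR', hq', h'⟩ := gR_lin hR hq h
    exact h'.smcLoc (smcLoc_c3 hR' hq')
  · rw [h]
    exact smcLoc_c0 hR hq

/-- **Cubic polynomials in four variables at the critical zeros of rank one.** -/
theorem smcLoc_rank_one {f : MvPolynomial (Fin 4) ℂ} (hd : f.totalDegree ≤ 3) {p : Fin 4 → ℂ}
    (h0 : eval p f = 0) (h1 : ∀ i, eval p (pderiv i f) = 0) (hr : (YG.hessAt f p).rank = 1) :
    SmcLoc (translate p f) := by
  obtain ⟨R, q, c, hR, hq, hc, h⟩ := exists_gR hd h0 h1 hr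
  exact h.smcLoc (smcLoc_gR hR hq hc)

end CR

end MPb07157
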