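import Pool.Agent.Lib.MP_b07157_agCS.Defs

/-!
# Critical points of rank one of cubic polynomials in four variables: definitions
-/

noncomputable section

namespace MPb07157

open MvPolynomial

namespace CR

open CS

/-- The weight of an exponent. -/
def wt4 (w : Fin 4 → ℕ) (v : Fin 4 → ℕ) : ℕ := w 0 * v 0 + w 1 * v 1 + w 2 * v 2 + w 3 * v 3

/-- A cubic polynomial with a critical zero of rank one at the origin: `R` is a linear form, `q` a
quadratic and `c` a cubic form in the last three variables. -/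
def gR (R : MvPolynomial (Fin 4) ℂ) (q c : MvPolynomial (Fin 3) ℂ) : MvPolynomial (Fin 4) ℂ :=
  X 0 ^ 2 * (1 + R) + X 0 * rename Fin.succ q + rename Fin.succ c

/-- The quadratic form with the coefficients `k`. -/
def qf (k : Fin 6 → ℂ) : MvPolynomial (Fin 3) ℂ :=
  C (k 0) * X 0 ^ 2 + C (k 1) * X 1 ^ 2 + C (k 2) * X 2 ^ 2 + C (k 3) * (X 1 * X 2) +
    C (k 4) * (X 0 * X 2) + C (k 5) * (X 0 * X 1)

/-- Nodal cubic, conic and secant line, triangle. -/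
def cT (a b : ℂ) : MvPolynomial (Fin 3) ℂ := X 0 * X 1 * X 2 + C a * X 0 ^ 3 + C b * X 1 ^ 3

/-- Cuspidal cubic. -/
def cQ : MvPolynomial (Fin 3) ℂ := X 0 ^ 2 * X 2 + X 1 ^ 3

/-- Conic and tangent line. -/
def cS : MvPolynomial (Fin 3) ℂ := X 0 ^ 2 * X 2 + X 0 * X 1 ^ 2

/-- Double line and line. -/
def cV : MvPolynomial (Fin 3) ℂ := X 0 ^ 2 * X 2

/-- Binary cubic forms. -/
def cU (e : Fin 4 → ℂ) : MvPolynomial (Fin 3) ℂ :=
  C (e 0) * X 0 ^ 3 + C (e 1) * (X 0 ^ 2 * X 1) + C (e 2) * (X 0 * X 1 ^ 2) + C (e 3) * X 1 ^ 3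

/-- The binary cubic form has no multiple factor. -/
def SqfU (e : Fin 4 → ℂ) : Prop :=
  ∀ x y : ℂ, 3 * e 0 * x ^ 2 + 2 * e 1 * (x * y) + e 2 * y ^ 2 = 0 →
    e 1 * x ^ 2 + 2 * e 2 * (x * y) + 3 * e 3 * y ^ 2 = 0 → x = 0 ∧ y = 0

end CR

end MPb07157
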