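import Pool.Agent.Lib.MP_b07157_agCR.Defs
import Pool.Agent.Lib.MP_b07157_agE.EMain
import Pool.Agent.Lib.MP_b07157_agS.SMain

/-!
# Newton non-degeneracy from the faces
-/

noncomputable section

namespace MPb07157

open MvPolynomial

namespace CR

private def g0e {m : ℕ} (E : Fin (m + 1) → Fin 4 → ℕ) (a : Fin (m + 1)) : Fin 4 →₀ ℕ :=
  Finsupp.equivFunOnFinite.symm (E a)

private theorem g0e_apply {m : ℕ} (E : Fin (m + 1) → Fin 4 → ℕ) (a : Fin (m + 1)) (i : Fin 4) :
    g0e E a i = E a i := rfl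

private theorem g0e_inj {m : ℕ} {E : Fin (m + 1) → Fin 4 → ℕ} (hE : Function.Injective E) :
    Function.Injective (g0e E) := fun a b h => hE (by
  funext i
  have h1 : g0e E a i = g0e E b i := by rw [h]
  exact h1)

private theorem g0_mon {m : ℕ} (E : Fin (m + 1) → Fin 4 → ℕ) (a : Fin (m + 1)) (c : ℂ) :
    (C c * ∏ i, X i ^ E a i : MvPolynomial (Fin 4) ℂ) = monomial (g0e E a) c := by
  rw [MvPolynomial.monomial_eq, Finsupp.prod_fintype _ _ (fun i => pow_zero _)]
  rfl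

private theorem g0_coeff (R : MvPolynomial (Fin 4) ℂ) {m : ℕ} (c : Fin (m + 1) → ℂ)
    (E : Fin (m + 1) → Fin 4 → ℕ) (v : Fin 4 →₀ ℕ) :
    coeff v (X 0 ^ 2 * R + ∑ a, C (c a) * ∏ i, X i ^ E a i : MvPolynomial (Fin 4) ℂ) =
      (if Finsupp.single 0 2 ≤ v then coeff (v - Finsupp.single 0 2) R else 0) +
        ∑ a, if g0e E a = v then c a else 0 := by
  classical
  rw [coeff_add, X_pow_eq_monomial, coeff_monomial_mul', coeff_sum]
  simp only [one_mul]
  congr 1
  refine Finset.sum_congr rfl fun a _ => ?_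
  rw [g0_mon, coeff_monomial]

private theorem g0_wt (w : Fin 4 → ℕ) (v : Fin 4 →₀ ℕ) : ∑ j, w j * v j = wt4 w v := by
  rw [Fin.sum_univ_four]
  rfl

private theorem g0_wt_lt {w : Fin 4 → ℕ} (hw : ∀ j, 0 < w j) {v : Fin 4 →₀ ℕ} (h2 : 2 ≤ v 0)
    (hne : (v : Fin 4 → ℕ) ≠ ![2, 0, 0, 0]) :
    wt4 w ![2, 0, 0, 0] < wt4 w v := by
  unfold wt4
  have h0 := hw 0
  have h1 := hw 1
  have h3 := hw 2
  have h4 := hw 3
  simp only [Matrix.cons_val]
  by_contra hc
  push Not at hc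
  apply hne
  have e0 : w 0 * 2 ≤ w 0 * v 0 := Nat.mul_le_mul_left _ h2
  have z1 : w 1 * v 1 = 0 := by omega
  have z2 : w 2 * v 2 = 0 := by omega
  have z3 : w 3 * v 3 = 0 := by omega
  have z0 : w 0 * v 0 = w 0 * 2 := by omega
  have y1 : v 1 = 0 := (Nat.mul_eq_zero.1 z1).resolve_left h1.ne'
  have y2 : v 2 = 0 := (Nat.mul_eq_zero.1 z2).resolve_left h3.ne'
  have y3 : v 3 = 0 := (Nat.mul_eq_zero.1 z3).resolve_left h4.ne'
  have y0 : v 0 = 2 := Nat.eq_of_mul_eq_mul_left h0 z0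
  funext i
  fin_cases i <;> simp [y0, y1, y2, y3]

/-- **The criterion.** Let `F = X_0² R + ∑_a c_a X^{E_a}` with `R(0) = 0`, `E_0 = (2,0,0,0)`,
`c_0 = 1`, the other `E_a` pairwise distinct with `x_0`-exponent at most one and not zero. For each
positive weight `w`, the terms of `X_0² R` have weight `> w(E_0)`, so the initial part of `F` consists
of the terms `c_a X^{E_a}` with `c_a ≠ 0` of the minimal weight `N`. The hypothesis says that the
initial part has no critical point `u` in the torus (the sums are `u_j ∂_j` of the initial part at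
`u`). Conclusion by `MPb07157.eval_eq_zero_of_form` (agE/EMain): `IsNondeg (initialPart F w)` for all
positive `w`. (Compute `coeff v F`: for `v 0 ≥ 2`, `v ≠ (2,0,0,0)` it comes from `R`; otherwise from
the sum.) -/
theorem smcLoc_of_faces_u {R : MvPolynomial (Fin 4) ℂ} (hR : constantCoeff R = 0) {m : ℕ}
    (c : Fin (m + 1) → ℂ) (E : Fin (m + 1) → Fin 4 → ℕ) (hE : Function.Injective E)
    (hc0 : c 0 = 1) (hE0 : E 0 = ![2, 0, 0, 0]) (hE1 : ∀ a, a ≠ 0 → E a 0 ≤ 1)
    (hE2 : ∀ a, E a ≠ 0)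
    (h : ∀ w : Fin 4 → ℕ, (∀ j, 0 < w j) → ∀ N, (∀ a, c a ≠ 0 → N ≤ wt4 w (E a)) →
      ∀ u : Fin 4 → ℂ, (∀ j, u j ≠ 0) →
        (∀ j, ∑ a, (if wt4 w (E a) = N then c a * ∏ i, u i ^ E a i else 0) * (E a j : ℂ) = 0) →
          ∀ a, wt4 w (E a) = N → c a = 0) :
    SmcLoc (X 0 ^ 2 * R + ∑ a, C (c a) * ∏ i, X i ^ E a i : MvPolynomial (Fin 4) ℂ) := by
  classical
  obtain ⟨F, hF⟩ : ∃ F : MvPolynomial (Fin 4) ℂ,
    F = X 0 ^ 2 * R + ∑ a, C (c a) * ∏ i, X i ^ E a i := ⟨_, rfl⟩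
  rw [← hF]
  have hco : ∀ v : Fin 4 →₀ ℕ, coeff v F =
      (if Finsupp.single 0 2 ≤ v then coeff (v - Finsupp.single 0 2) R else 0) +
        ∑ a, if g0e E a = v then c a else 0 := fun v => by rw [hF]; exact g0_coeff R c E v
  have hsum : ∀ a, (∑ b, if g0e E b = g0e E a then c b else 0) = c a := by
    intro a
    rw [Finset.sum_eq_single a (fun b _ hb => if_neg fun h => hb (g0e_inj hE h))
      (fun h => absurd (Finset.mem_univ _) h), if_pos rfl]
  have he0 : g0e E 0 = Finsupp.single 0 2 := by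
    ext i
    rw [g0e_apply, hE0]
    fin_cases i <;> simp
  have hcoe : ∀ a, coeff (g0e E a) F = c a := by
    intro a
    rw [hco, hsum]
    by_cases ha : a = 0
    · subst ha
      rw [he0, if_pos le_rfl, tsub_self, ← constantCoeff_eq, hR, zero_add]
    · rw [if_neg, zero_add]
      intro hle
      have := hle 0
      rw [Finsupp.single_eq_same, g0e_apply] at this
      have h1 := hE1 a ha
      omega
  have hsupp : ∀ v ∈ F.support, v 0 < 2 → ∃ a, c a ≠ 0 ∧ g0e E a = v := by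
    intro v hv hv0
    rw [mem_support_iff, hco, if_neg, zero_add] at hv
    · obtain ⟨a, _, ha⟩ := Finset.exists_ne_zero_of_sum_ne_zero hv
      by_cases h1 : g0e E a = v
      · rw [if_pos h1] at ha
        exact ⟨a, ha, h1⟩
      · rw [if_neg h1] at ha
        exact absurd rfl ha
    · intro hle
      have := hle 0
      rw [Finsupp.single_eq_same] at this
      omega
  have h0s : g0e E 0 ∈ F.support := by
    rw [mem_support_iff, hcoe, hc0]
    exact one_ne_zero
  have hF0 : F ≠ 0 := by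
    intro h
    rw [h] at h0s
    simp at h0s
  have hcz : coeff 0 F = 0 := by
    by_contra hne
    obtain ⟨a, _, ha⟩ := hsupp 0 (mem_support_iff.2 hne) (by simp)
    apply hE2 a
    funext i
    have h1 : g0e E a i = (0 : Fin 4 →₀ ℕ) i := by rw [ha]
    exact h1
  refine fun s₀ _ hp b hb => eval_eq_zero_of_form hF0 hcz (fun w hw => ?_) s₀ hp b hb
  obtain ⟨S, hS1, hS2⟩ : ∃ S : Finset (Fin 4 →₀ ℕ),
      initialPart F w = ∑ v ∈ S, monomial v (coeff v F) ∧
      ∀ v, v ∈ S ↔ v ∈ F.support ∧ ∀ u ∈ F.support, ∑ j, w j * v j ≤ ∑ j, w j * u j :=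
    ⟨_, rfl, fun v => Finset.mem_filter⟩
  obtain ⟨v₀, hv₀, hmin⟩ := Finset.exists_min_image F.support (fun v => ∑ j, w j * v j)
    ⟨_, h0s⟩
  have hvS : v₀ ∈ S := (hS2 v₀).2 ⟨hv₀, hmin⟩
  have hSe : ∀ v ∈ S, ∃ a, c a ≠ 0 ∧ g0e E a = v := by
    intro v hv
    obtain ⟨h1, h2⟩ := (hS2 v).1 hv
    by_cases h3 : v 0 < 2
    · exact hsupp v h1 h3
    · by_cases h4 : v = g0e E 0
      · exact ⟨0, by rw [hc0]; exact one_ne_zero, h4.symm⟩
      · exfalso
        have h5 := h2 _ h0s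
        rw [g0_wt, g0_wt] at h5
        have h6 : wt4 w (g0e E 0 : Fin 4 →₀ ℕ) = wt4 w ![2, 0, 0, 0] := by
          rw [← hE0]
          rfl
        rw [h6] at h5
        have h8 : (v : Fin 4 → ℕ) ≠ ![2, 0, 0, 0] := by
          intro h7
          apply h4
          ext i
          rw [g0e_apply, hE0, ← h7]
        have h9 := g0_wt_lt hw (v := v) (by omega) h8
        omega
  have hSwt : ∀ v ∈ F.support, (v ∈ S ↔ wt4 w v = wt4 w v₀) := by
    intro v hv
    rw [hS2, ← g0_wt, ← g0_wt]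
    constructor
    · rintro ⟨_, h1⟩
      exact le_antisymm (h1 _ hv₀) (hmin v hv)
    · intro h1
      refine ⟨hv, fun u hu => ?_⟩
      rw [h1]
      exact hmin u hu
  intro u hu _
  by_contra hcon
  push Not at hcon
  obtain ⟨a₀, ha₀, ha₀'⟩ := hSe v₀ hvS
  refine ha₀ (h w hw (wt4 w v₀) (fun a ha => ?_) u hu (fun j => ?_) a₀ ?_)
  · have h1 : g0e E a ∈ F.support := by
      rw [mem_support_iff, hcoe]
      exact ha
    have h2 := hmin _ h1
    rw [g0_wt, g0_wt] at h2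
    exact h2
  · have h1 : eval u (X j * pderiv j (initialPart F w)) = 0 := by
      rw [map_mul, hcon j, mul_zero]
    rw [hS1, map_sum, Finset.mul_sum, map_sum] at h1
    have h2 : ∑ v ∈ S, eval u (X j * pderiv j (monomial v (coeff v F))) =
        ∑ a ∈ Finset.univ.filter (fun a => c a ≠ 0 ∧ wt4 w (E a) = wt4 w v₀),
          eval u (X j * pderiv j (monomial (g0e E a) (coeff (g0e E a) F))) := by
      symm
      refine Finset.sum_bij (fun a _ => g0e E a) ?_ ?_ ?_ ?_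
      · intro a ha
        obtain ⟨_, h3, h4⟩ := Finset.mem_filter.1 ha
        exact (hSwt _ (by rw [mem_support_iff, hcoe]; exact h3)).2 h4
      · intro a _ b _ hab
        exact g0e_inj hE hab
      · intro v hv
        obtain ⟨a, h3, h4⟩ := hSe v hv
        refine ⟨a, Finset.mem_filter.2 ⟨Finset.mem_univ _, h3, ?_⟩, h4⟩
        have h5 := (hSwt v ((hS2 v).1 hv).1).1 hv
        rw [← h4] at h5
        exact h5
      · intro a _
        rfl
    rw [h2] at h1
    refine Eq.trans ?_ h1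
    symm
    rw [Finset.sum_filter]
    refine Finset.sum_congr rfl fun a _ => ?_
    rw [X_mul_pderiv_monomial, map_nsmul, nsmul_eq_mul, eval_monomial, hcoe,
      Finsupp.prod_fintype _ _ (fun i => pow_zero _)]
    by_cases h3 : wt4 w (E a) = wt4 w v₀
    · by_cases h4 : c a = 0
      · rw [if_neg (fun h5 => h5.1 h4), if_pos h3, h4]
        ring
      · rw [if_pos ⟨h4, h3⟩, if_pos h3]
        simp only [g0e_apply]
        ring
    · rw [if_neg (fun h5 => h3 h5.2), if_neg h3, zero_mul]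
  · rw [← ha₀']
    rfl

/-- The same with abstract coefficients `y_a` instead of `c_a u^{E_a}`: to be used if the exponents of
each face are linearly independent. -/
theorem smcLoc_of_faces {R : MvPolynomial (Fin 4) ℂ} (hR : constantCoeff R = 0) {m : ℕ}
    (c : Fin (m + 1) → ℂ) (E : Fin (m + 1) → Fin 4 → ℕ) (hE : Function.Injective E)
    (hc0 : c 0 = 1) (hE0 : E 0 = ![2, 0, 0, 0]) (hE1 : ∀ a, a ≠ 0 → E a 0 ≤ 1)
    (hE2 : ∀ a, E a ≠ 0)
    (h : ∀ w : Fin 4 → ℕ, (∀ j, 0 < w j) → ∀ N, (∀ a, c a ≠ 0 → N ≤ wt4 w (E a)) →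
      ∀ y : Fin (m + 1) → ℂ, (∀ a, y a ≠ 0 → c a ≠ 0 ∧ wt4 w (E a) = N) →
        (∀ j, ∑ a, y a * (E a j : ℂ) = 0) → ∀ a, y a = 0)
    {F : MvPolynomial (Fin 4) ℂ}
    (hF : ∀ x : Fin 4 → ℂ, eval x F = x 0 ^ 2 * eval x R + ∑ a, c a * (x 0 ^ E a 0 * x 1 ^ E a 1 *
      x 2 ^ E a 2 * x 3 ^ E a 3)) : SmcLoc F := by
  have h1 : F = X 0 ^ 2 * R + ∑ a, C (c a) * ∏ i, X i ^ E a i := by
    refine MvPolynomial.funext fun x => ?_
    rw [hF, map_add, map_mul, map_pow, eval_X, map_sum]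
    congr 1
    refine Finset.sum_congr rfl fun a _ => ?_
    simp [Fin.prod_univ_four]
  rw [h1]
  refine smcLoc_of_faces_u hR c E hE hc0 hE0 hE1 hE2 fun w hw N hN u hu hs a ha => ?_
  have h2 := h w hw N hN (fun a => if wt4 w (E a) = N then c a * ∏ i, u i ^ E a i else 0)
    (fun a ha => ?_) hs a
  · simp only [ha, if_true] at h2
    exact (mul_eq_zero.1 h2).resolve_right
      (Finset.prod_ne_zero_iff.2 fun i _ => pow_ne_zero _ (hu i))
  · by_cases h3 : wt4 w (E a) = N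
    · simp only [h3, if_true] at ha
      exact ⟨left_ne_zero_of_mul ha, h3⟩
    · simp only [h3, if_false] at ha
      exact absurd rfl ha

end CR

end MPb07157
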