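import Pool.Agent.Lib.MP_b07157_agCR.G0

/-!
# Faces: type T
-/

noncomputable section

namespace MPb07157

open MvPolynomial

namespace CR

private theorem nt_lin {y0 y1 y2 y3 y4 y5 y6 : ℂ} (e0 : 2 * y0 + y1 + y2 + y3 = 0)
    (e1 : 2 * y1 + y4 + 3 * y5 = 0) (e2 : 2 * y2 + y4 + 3 * y6 = 0) (e3 : 2 * y3 + y4 = 0)
    (e4 : y0 + y1 + y2 + y3 + y4 + y5 + y6 = 0) (h1 : y1 = 0 ∨ y5 = 0) (h2 : y2 = 0 ∨ y6 = 0) :
    y0 = 0 ∧ y1 = 0 ∧ y2 = 0 ∧ y3 = 0 ∧ y4 = 0 ∧ y5 = 0 ∧ y6 = 0 := by
  have h4 : y4 = 0 := by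
    rcases h1 with h1 | h1 <;> rcases h2 with h2 | h2 <;> subst h1 <;> subst h2
    · linear_combination 12 * e4 - 6 * e0 - 4 * e1 - 4 * e2 - 3 * e3
    · linear_combination 6 * e4 - 3 * e0 - 2 * e1 - (3 / 2) * e2 - (3 / 2) * e3
    · linear_combination 6 * e4 - 3 * e0 - 2 * e2 - (3 / 2) * e1 - (3 / 2) * e3
    · linear_combination 4 * e4 - 2 * e0 - e1 - e2 - e3
  subst h4
  have h3 : y3 = 0 := by linear_combination (1 / 2) * e3
  subst h3
  have h15 : y1 = 0 ∧ y5 = 0 := by
    rcases h1 with h1 | h1 <;> subst h1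
    · exact ⟨rfl, by linear_combination (1 / 3) * e1⟩
    · exact ⟨by linear_combination (1 / 2) * e1, rfl⟩
  have h26 : y2 = 0 ∧ y6 = 0 := by
    rcases h2 with h2 | h2 <;> subst h2
    · exact ⟨rfl, by linear_combination (1 / 3) * e2⟩
    · exact ⟨by linear_combination (1 / 2) * e2, rfl⟩
  obtain ⟨h1', h5'⟩ := h15
  obtain ⟨h2', h6'⟩ := h26
  subst h1' h5' h2' h6'
  exact ⟨by linear_combination (1 / 2) * e0, rfl, rfl, rfl, rfl, rfl, rfl⟩

/-- The monomials are `x_0²`, `x_0x_1²`, `x_0x_2²`, `x_0x_3²`, `x_1x_2x_3`, `x_1³`, `x_2³` (and multiples of `x_0²`). If `a ≠ 0` then `x_0x_1²` is never of minimal weight (`w_0 + 2w_1 ≤ 2w_0`, `≤ 3w_1` is impossible), similarly `x_0x_2²` for `b ≠ 0`. So in each of the four cases there are at most five monomials, and their exponents are affinely independent: in a relation `∑ y_a E_a = 0` among them also `∑ y_a w(E_a) = 0`, i.e. `∑ y_a = 0` (as `N > 0`), and the five vectors `(E_a, 1)` are linearly independent. By `smcLoc_of_faces`,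 `fin_cases`, `Fin.sum_univ_succ`; the weight conditions are linear (`wt4`, `omega`). -/
theorem smcLoc_fT {R : MvPolynomial (Fin 4) ℂ} (hR : constantCoeff R = 0) (a b α β γ : ℂ) :
    SmcLoc (X 0 ^ 2 * (1 + R) + X 0 * (C α * X 1 ^ 2 + C β * X 2 ^ 2 + C γ * X 3 ^ 2) +
      (X 1 * X 2 * X 3 + C a * X 1 ^ 3 + C b * X 2 ^ 3)) := by
  refine smcLoc_of_faces (R := R) hR (m := 6) ![1, α, β, γ, 1, a, b]
    ![![2, 0, 0, 0], ![1, 2, 0, 0], ![1, 0, 2, 0], ![1, 0, 0, 2], ![0, 1, 1, 1], ![0, 3, 0, 0],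
      ![0, 0, 3, 0]] (by decide) rfl rfl (by decide) (by decide) ?_ ?_
  · intro w hw N hN y hy hs
    have hw0 := hw 0
    have hw1 := hw 1
    have hw2 := hw 2
    have hw3 := hw 3
    have e0 := hs 0
    have e1 := hs 1
    have e2 := hs 2
    have e3 := hs 3
    simp [Fin.sum_univ_succ] at e0 e1 e2 e3
    have n0 := hN 0
    have n4 := hN 4
    have n5 := hN 5
    have n6 := hN 6
    simp [wt4] at n0 n4 n5 n6
    have k0 := hy 0
    have k1 := hy 1
    have k2 := hy 2
    have k3 := hy 3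
    have k4 := hy 4
    have k5 := hy 5
    have k6 := hy 6
    simp [wt4] at k0 k1 k2 k3 k4 k5 k6
    have q : ∀ (z : ℂ) (k : ℕ), (¬z = 0 → k = N) → z * (k : ℂ) = z * (N : ℂ) := by
      intro z k h
      by_cases hz : z = 0
      · rw [hz, zero_mul, zero_mul]
      · rw [h hz]
    have q0 := q (y 0) _ k0
    have q1 := q (y 1) _ fun h => (k1 h).2
    have q2 := q (y 2) _ fun h => (k2 h).2
    have q3 := q (y 3) _ fun h => (k3 h).2
    have q4 := q (y 4) _ k4
    have q5 := q (y 5) _ fun h => (k5 h).2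
    have q6 := q (y 6) _ fun h => (k6 h).2
    push_cast at q0 q1 q2 q3 q4 q5 q6
    have hsum : (N : ℂ) * (y 0 + y 1 + y 2 + y 3 + y 4 + y 5 + y 6) = 0 := by
      linear_combination (w 0 : ℂ) * e0 + (w 1 : ℂ) * e1 + (w 2 : ℂ) * e2 + (w 3 : ℂ) * e3 - q0 -
        q1 - q2 - q3 - q4 - q5 - q6
    have hall : y 0 = 0 ∧ y 1 = 0 ∧ y 2 = 0 ∧ y 3 = 0 ∧ y 4 = 0 ∧ y 5 = 0 ∧ y 6 = 0 := by
      by_cases hN0 : N = 0
      · refine ⟨?_, ?_, ?_, ?_, ?_, ?_, ?_⟩ <;> by_contra h
        · have := k0 h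
          omega
        · have := (k1 h).2
          omega
        · have := (k2 h).2
          omega
        · have := (k3 h).2
          omega
        · have := k4 h
          omega
        · have := (k5 h).2
          omega
        · have := (k6 h).2
          omega
      · have hNc : (N : ℂ) ≠ 0 := by exact_mod_cast hN0
        have e4 := (mul_eq_zero.1 hsum).resolve_left hNc
        refine nt_lin (by linear_combination e0) (by linear_combination e1)
          (by linear_combination e2) (by linear_combination e3) e4 ?_ ?_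
        · by_contra h
          rw [not_or] at h
          have h1 := (k1 h.1).2
          have h5 := k5 h.2
          have h5' := n5 h5.1
          omega
        · by_contra h
          rw [not_or] at h
          have h2 := (k2 h.1).2
          have h6 := k6 h.2
          have h6' := n6 h6.1
          omega
    obtain ⟨a0, a1, a2, a3, a4, a5, a6⟩ := hall
    intro t
    fin_cases t <;> assumption
  · intro x
    simp [Fin.sum_univ_succ]
    ring

end CR

end MPb07157
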