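import Pool.Agent.Lib.MP_b07157_agCR.Defs
import Pool.Agent.Lib.MP_b07157_agCS.T1

/-!
# Ternary cubic forms with a critical point, I
-/

noncomputable section

namespace MPb07157

open MvPolynomial

namespace CR

open CS

/-- A ternary cubic form with a critical point `p ≠ 0`: in a basis with `b_2 = p`, it is
`x_2 Q(x_0, x_1) + C(x_0, x_1)`. (`exists_cub`, `linEq_basis` of agCS; expand with
`Fin.sum_univ_three`.) -/
theorem exists_pencil {c : MvPolynomial (Fin 3) ℂ} (hc : c.IsHomogeneous 3) {p : Fin 3 → ℂ}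
    (hp : p ≠ 0) (hs : ∀ i, eval p (pderiv i c) = 0) :
    ∃ (s : Fin 3 → ℂ) (e : Fin 4 → ℂ), LinEq c
      (X 2 * (C (s 0) * X 0 ^ 2 + C (s 1) * (X 0 * X 1) + C (s 2) * X 1 ^ 2) + cU e) := by
  obtain ⟨t, ht, rfl⟩ := exists_cub hc
  have h1 : LinearIndependent ℂ (fun _ : Fin 1 => p) :=
    LinearIndependent.of_subsingleton (ι := Fin 1) 0 hp
  obtain ⟨x, hx⟩ := exists_linearIndependent_cons_of_lt_finrank h1 (by simp)
  obtain ⟨y, hy⟩ := exists_linearIndependent_cons_of_lt_finrank hx (by simp)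
  obtain ⟨b, hb⟩ : ∃ b : Module.Basis (Fin 3) ℂ (Fin 3 → ℂ), b 2 = p :=
    ⟨basisOfLinearIndependentOfCardEqFinrank hy (by simp), by
      rw [coe_basisOfLinearIndependentOfCardEqFinrank]
      rfl⟩
  have h2 := (mem_Cr_cub ht p).1 hs
  have hT := sym_basis ht (fun i => b i)
  have h3 := linEq_basis (t := t) b
  obtain ⟨T, hTd⟩ : ∃ T : Fin 3 → Fin 3 → Fin 3 → ℂ, T = fun i j k => tri t (b i) (b j) (b k) :=
    ⟨_, rfl⟩
  rw [← hTd] at hT h3
  have h22 : ∀ k, T 2 2 k = 0 := by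
    intro k
    rw [hTd]
    simp only
    rw [hb]
    exact h2 _
  obtain ⟨s1, s2⟩ := hT
  have e010 : T 0 1 0 = T 0 0 1 := s2 0 1 0
  have e100 : T 1 0 0 = T 0 0 1 := (s1 1 0 0).trans e010
  have e020 : T 0 2 0 = T 0 0 2 := s2 0 2 0
  have e200 : T 2 0 0 = T 0 0 2 := (s1 2 0 0).trans e020
  have e101 : T 1 0 1 = T 0 1 1 := s1 1 0 1
  have e110 : T 1 1 0 = T 0 1 1 := (s2 1 1 0).trans e101
  have e021 : T 0 2 1 = T 0 1 2 := s2 0 2 1
  have e102 : T 1 0 2 = T 0 1 2 := s1 1 0 2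
  have e120 : T 1 2 0 = T 0 1 2 := (s2 1 2 0).trans e102
  have e201 : T 2 0 1 = T 0 1 2 := (s1 2 0 1).trans e021
  have e210 : T 2 1 0 = T 0 1 2 := (s1 2 1 0).trans e120
  have e121 : T 1 2 1 = T 1 1 2 := s2 1 2 1
  have e211 : T 2 1 1 = T 1 1 2 := (s1 2 1 1).trans e121
  have e202 : T 2 0 2 = 0 := (s2 2 0 2).trans (h22 0)
  have e212 : T 2 1 2 = 0 := (s2 2 1 2).trans (h22 1)
  have e022 : T 0 2 2 = 0 := (s1 0 2 2).trans e202
  have e122 : T 1 2 2 = 0 := (s1 1 2 2).trans e212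
  refine ⟨![3 * T 0 0 2, 6 * T 0 1 2, 3 * T 1 1 2],
    ![T 0 0 0, 3 * T 0 0 1, 3 * T 0 1 1, T 1 1 1], ?_⟩
  have h4 : cub T = X 2 * (C (3 * T 0 0 2) * X 0 ^ 2 + C (6 * T 0 1 2) * (X 0 * X 1) +
      C (3 * T 1 1 2) * X 1 ^ 2) + (C (T 0 0 0) * X 0 ^ 3 + C (3 * T 0 0 1) * (X 0 ^ 2 * X 1) +
        C (3 * T 0 1 1) * (X 0 * X 1 ^ 2) + C (T 1 1 1) * X 1 ^ 3) := by
    unfold cub
    simp only [Fin.sum_univ_three, h22, e010, e100, e020, e200, e101, e110, e021, e102, e120,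
      e201, e210, e121, e211, e202, e212, e022, e122, C_0, map_mul, map_ofNat]
    ring
  rw [h4] at h3
  exact h3

end CR

end MPb07157
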