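import Pool.Agent.Lib.MP_b07157_agCR.K1
import Pool.Agent.Lib.MP_b07157_agCS.B2

/-!
# Ternary cubic forms with a critical point, II
-/

noncomputable section

namespace MPb07157

open MvPolynomial

namespace CR

open CS

/-- A change of coordinates that preserves the point `(0, 0, 1)`. -/
private theorem k2_lin {s : Fin 3 → ℂ} {e : Fin 4 → ℂ} {G : MvPolynomial (Fin 3) ℂ}
    (a b g d k l m : ℂ) (h : (a * d - b * g) * k ≠ 0)
    (hG : ∀ w : Fin 3 → ℂ, (l * w 0 + m * w 1 + k * w 2) * (s 0 * (a * w 0 + b * w 1) ^ 2 +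
      s 1 * ((a * w 0 + b * w 1) * (g * w 0 + d * w 1)) + s 2 * (g * w 0 + d * w 1) ^ 2) +
      (e 0 * (a * w 0 + b * w 1) ^ 3 + e 1 * ((a * w 0 + b * w 1) ^ 2 * (g * w 0 + d * w 1)) +
      e 2 * ((a * w 0 + b * w 1) * (g * w 0 + d * w 1) ^ 2) + e 3 * (g * w 0 + d * w 1) ^ 3) =
      eval w G) :
    LinEq (X 2 * (C (s 0) * X 0 ^ 2 + C (s 1) * (X 0 * X 1) + C (s 2) * X 1 ^ 2) + cU e) G := by
  refine LinEq.of_matrix !![a, b, 0; g, d, 0; l, m, k] ?_ fun w => ?_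
  · rw [Matrix.det_fin_three]
    intro h1
    apply h
    rw [← h1]
    simp
    ring
  · have e0 : (!![a, b, 0; g, d, 0; l, m, k] : Matrix (Fin 3) (Fin 3) ℂ).mulVec w 0
        = a * w 0 + b * w 1 := by
      simp [Matrix.mulVec, dotProduct, Fin.sum_univ_three]
    have e1 : (!![a, b, 0; g, d, 0; l, m, k] : Matrix (Fin 3) (Fin 3) ℂ).mulVec w 1
        = g * w 0 + d * w 1 := by
      simp [Matrix.mulVec, dotProduct, Fin.sum_univ_three]
    have e2 : (!![a, b, 0; g, d, 0; l, m, k] : Matrix (Fin 3) (Fin 3) ℂ).mulVec w 2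
        = l * w 0 + m * w 1 + k * w 2 := by
      simp [Matrix.mulVec, dotProduct, Fin.sum_univ_three]
    rw [← hG]
    simp only [cU, map_add, map_mul, map_pow, eval_X, eval_C, e0, e1, e2]

/-- A change of the coordinates `x_0, x_1`. -/
private theorem k2_change {s : Fin 3 → ℂ} (e : Fin 4 → ℂ) {a b g d : ℂ} (h : a * d - b * g ≠ 0)
    {t : Fin 3 → ℂ} (h0 : s 0 * a ^ 2 + s 1 * (a * g) + s 2 * g ^ 2 = t 0)
    (h1 : 2 * s 0 * (a * b) + s 1 * (a * d + b * g) + 2 * s 2 * (g * d) = t 1)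
    (h2 : s 0 * b ^ 2 + s 1 * (b * d) + s 2 * d ^ 2 = t 2) :
    ∃ e' : Fin 4 → ℂ,
      LinEq (X 2 * (C (s 0) * X 0 ^ 2 + C (s 1) * (X 0 * X 1) + C (s 2) * X 1 ^ 2) + cU e)
        (X 2 * (C (t 0) * X 0 ^ 2 + C (t 1) * (X 0 * X 1) + C (t 2) * X 1 ^ 2) + cU e') := by
  refine ⟨![e 0 * a ^ 3 + e 1 * (a ^ 2 * g) + e 2 * (a * g ^ 2) + e 3 * g ^ 3,
    3 * e 0 * (a ^ 2 * b) + e 1 * (a ^ 2 * d + 2 * (a * b * g)) +
      e 2 * (2 * (a * g * d) + b * g ^ 2) + 3 * e 3 * (g ^ 2 * d),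
    3 * e 0 * (a * b ^ 2) + e 1 * (b ^ 2 * g + 2 * (a * b * d)) +
      e 2 * (2 * (b * g * d) + a * d ^ 2) + 3 * e 3 * (g * d ^ 2),
    e 0 * b ^ 3 + e 1 * (b ^ 2 * d) + e 2 * (b * d ^ 2) + e 3 * d ^ 3],
    k2_lin a b g d 1 0 0 (by rwa [mul_one]) fun w => ?_⟩
  simp only [cU, map_add, map_mul, map_pow, eval_X, eval_C, Matrix.cons_val_zero,
    Matrix.cons_val_one, Matrix.cons_val]
  rw [← h0, ← h1, ← h2]
  ring

/-- **Rank two**: `c = x_2 Q + C` with `Q` of rank two: a linear change of `x_0, x_1` makes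
`Q = x_0 x_1`; `x_2 → x_2 - (linear form in x_0, x_1)` removes `x_0² x_1` and `x_0 x_1²`. -/
theorem pencil_rank_two {s : Fin 3 → ℂ} (hs : s 1 ^ 2 ≠ 4 * s 0 * s 2) (e : Fin 4 → ℂ) :
    ∃ a b, LinEq (X 2 * (C (s 0) * X 0 ^ 2 + C (s 1) * (X 0 * X 1) + C (s 2) * X 1 ^ 2) + cU e)
      (cT a b) := by
  have hdisc : s 1 ^ 2 - 4 * s 0 * s 2 ≠ 0 := sub_ne_zero.2 hs
  obtain ⟨a, b, g, d, h, h0, h1, h2⟩ : ∃ a b g d : ℂ, a * d - b * g ≠ 0 ∧
      s 0 * a ^ 2 + s 1 * (a * g) + s 2 * g ^ 2 = 0 ∧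
      2 * s 0 * (a * b) + s 1 * (a * d + b * g) + 2 * s 2 * (g * d) = 1 ∧
      s 0 * b ^ 2 + s 1 * (b * d) + s 2 * d ^ 2 = 0 := by
    by_cases hs0 : s 0 = 0
    · have hs1 : s 1 ≠ 0 := by
        intro h1
        apply hdisc
        rw [h1, hs0]
        ring
      refine ⟨1, -(s 2 / s 1 ^ 2), 0, (s 1)⁻¹, ?_, ?_, ?_, ?_⟩
      · rw [mul_zero, sub_zero, one_mul]
        exact inv_ne_zero hs1
      · rw [hs0]
        ring
      · rw [hs0]
        field_simp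
        ring
      · rw [hs0]
        field_simp
        ring
    · obtain ⟨r, hr⟩ := IsAlgClosed.exists_pow_nat_eq (s 1 ^ 2 - 4 * s 0 * s 2) (n := 2)
        (by norm_num)
      have hr0 : r ≠ 0 := by
        rintro rfl
        apply hdisc
        rw [← hr]
        ring
      obtain ⟨t, ht⟩ : ∃ t : ℂ, t * (-4 * s 0 * r ^ 2) = 1 :=
        ⟨(-4 * s 0 * r ^ 2)⁻¹, inv_mul_cancel₀
          (mul_ne_zero (mul_ne_zero (by norm_num) hs0) (pow_ne_zero 2 hr0))⟩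
      have ht0 : t ≠ 0 := by
        rintro rfl
        rw [zero_mul] at ht
        exact zero_ne_one ht
      refine ⟨-s 1 + r, t * (-s 1 - r), 2 * s 0, t * (2 * s 0), ?_, ?_, ?_, ?_⟩
      · have e1 : (-s 1 + r) * (t * (2 * s 0)) - t * (-s 1 - r) * (2 * s 0) =
            t * (4 * s 0 * r) := by ring
        rw [e1]
        exact mul_ne_zero ht0 (mul_ne_zero (mul_ne_zero (by norm_num) hs0) hr0)
      · linear_combination (s 0) * hr
      · linear_combination ht + 2 * t * s 0 * hr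
      · linear_combination (t ^ 2 * s 0) * hr
  obtain ⟨e', he'⟩ := k2_change e h (t := ![0, 1, 0]) h0 h1 h2
  refine ⟨e' 0, e' 3, he'.trans ?_⟩
  refine k2_lin 1 0 0 1 1 (-e' 1) (-e' 2) (by norm_num) fun w => ?_
  simp only [cT, map_add, map_mul, map_pow, eval_X, eval_C, Matrix.cons_val_zero,
    Matrix.cons_val_one, Matrix.cons_val]
  ring

/-- **Rank one**: `c = x_2 Q + C`, `Q ≠ 0` a square: a linear change makes `Q = x_0²`;
`x_2 → x_2 - (linear form)` removes `x_0³` and `x_0² x_1`, so `c = x_0² x_2 + a x_0 x_1² + b x_1³`. If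
`b ≠ 0`: the shift `x_1 → x_1 - (a/(3b)) x_0` (and again `x_2`) gives `x_0² x_2 + b x_1³`, and a scaling
`cQ`. If `b = 0`, `a ≠ 0`: scaling gives `cS`. If `a = b = 0`: `cV`. -/
theorem pencil_rank_one {s : Fin 3 → ℂ} (hs : s 1 ^ 2 = 4 * s 0 * s 2) (hs0 : s ≠ 0)
    (e : Fin 4 → ℂ) :
    LinEq (X 2 * (C (s 0) * X 0 ^ 2 + C (s 1) * (X 0 * X 1) + C (s 2) * X 1 ^ 2) + cU e) cQ ∨
    LinEq (X 2 * (C (s 0) * X 0 ^ 2 + C (s 1) * (X 0 * X 1) + C (s 2) * X 1 ^ 2) + cU e) cS ∨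
    LinEq (X 2 * (C (s 0) * X 0 ^ 2 + C (s 1) * (X 0 * X 1) + C (s 2) * X 1 ^ 2) + cU e) cV := by
  obtain ⟨a, b, g, d, h, h0, h1, h2⟩ : ∃ a b g d : ℂ, a * d - b * g ≠ 0 ∧
      s 0 * a ^ 2 + s 1 * (a * g) + s 2 * g ^ 2 = 1 ∧
      2 * s 0 * (a * b) + s 1 * (a * d + b * g) + 2 * s 2 * (g * d) = 0 ∧
      s 0 * b ^ 2 + s 1 * (b * d) + s 2 * d ^ 2 = 0 := by
    by_cases hs0' : s 0 = 0
    · have hs1 : s 1 = 0 := by
        rw [hs0', mul_zero, zero_mul] at hs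
        exact pow_eq_zero_iff (two_ne_zero) |>.1 hs
      have hs2 : s 2 ≠ 0 := by
        intro h2
        apply hs0
        funext i
        fin_cases i
        · exact hs0'
        · exact hs1
        · exact h2
      obtain ⟨r, hr⟩ := IsAlgClosed.exists_pow_nat_eq ((s 2)⁻¹) (n := 2) (by norm_num)
      have hr0 : r ≠ 0 := by
        rintro rfl
        rw [zero_pow two_ne_zero] at hr
        exact inv_ne_zero hs2 hr.symm
      refine ⟨0, 1, r, 0, ?_, ?_, ?_, ?_⟩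
      · rw [zero_mul, one_mul, zero_sub]
        exact neg_ne_zero.2 hr0
      · rw [hr, hs0', hs1, mul_inv_cancel₀ hs2]
        ring
      · rw [hs0', hs1]
        ring
      · rw [hs0', hs1]
        ring
    · obtain ⟨r, hr⟩ := IsAlgClosed.exists_pow_nat_eq ((s 0)⁻¹) (n := 2) (by norm_num)
      have hr0 : r ≠ 0 := by
        rintro rfl
        rw [zero_pow two_ne_zero] at hr
        exact inv_ne_zero hs0' hr.symm
      obtain ⟨t, ht⟩ : ∃ t : ℂ, 2 * s 0 * t = -s 1 := ⟨-s 1 / (2 * s 0), by field_simp⟩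
      refine ⟨r, t, 0, 1, ?_, ?_, ?_, ?_⟩
      · rw [mul_one, mul_zero, sub_zero]
        exact hr0
      · rw [hr, mul_inv_cancel₀ hs0']
        ring
      · linear_combination r * ht
      · apply mul_left_cancel₀ (mul_ne_zero (by norm_num : (4 : ℂ) ≠ 0) hs0')
        linear_combination (2 * s 0 * t + s 1) * ht - hs
  obtain ⟨e', he'⟩ := k2_change e h (t := ![1, 0, 0]) h0 h1 h2
  by_cases hB : e' 3 = 0
  · by_cases hA : e' 2 = 0
    · refine Or.inr (Or.inr (he'.trans ?_))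
      refine k2_lin 1 0 0 1 1 (-e' 0) (-e' 1) (by norm_num) fun w => ?_
      simp only [cV, map_mul, map_pow, eval_X, Matrix.cons_val_zero, Matrix.cons_val_one,
        Matrix.cons_val, hA, hB]
      ring
    · obtain ⟨r, hr⟩ := IsAlgClosed.exists_pow_nat_eq ((e' 2)⁻¹) (n := 2) (by norm_num)
      have hr0 : r ≠ 0 := by
        rintro rfl
        rw [zero_pow two_ne_zero] at hr
        exact inv_ne_zero hA hr.symm
      have hr1 : e' 2 * r ^ 2 = 1 := by rw [hr, mul_inv_cancel₀ hA]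
      refine Or.inr (Or.inl (he'.trans ?_))
      refine k2_lin 1 0 0 r 1 (-e' 0) (-(e' 1 * r)) (by simpa using hr0) fun w => ?_
      simp only [cS, map_add, map_mul, map_pow, eval_X, Matrix.cons_val_zero,
        Matrix.cons_val_one, Matrix.cons_val, hB]
      linear_combination (w 0 * w 1 ^ 2) * hr1
  · obtain ⟨r, hr⟩ := IsAlgClosed.exists_pow_nat_eq ((e' 3)⁻¹) (n := 3) (by norm_num)
    have hr0 : r ≠ 0 := by
      rintro rfl
      rw [zero_pow three_ne_zero] at hr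
      exact inv_ne_zero hB hr.symm
    have hr1 : e' 3 * r ^ 3 = 1 := by rw [hr, mul_inv_cancel₀ hB]
    obtain ⟨m, hm⟩ : ∃ m : ℂ, 3 * e' 3 * m = -e' 2 := ⟨-e' 2 / (3 * e' 3), by field_simp⟩
    refine Or.inl (he'.trans ?_)
    refine k2_lin 1 0 m r 1 (-(e' 0 + e' 1 * m + e' 2 * m ^ 2 + e' 3 * m ^ 3))
      (-(e' 1 * r + 2 * e' 2 * (m * r) + 3 * e' 3 * (m ^ 2 * r))) (by simpa using hr0)
      fun w => ?_
    simp only [cQ, map_add, map_mul, map_pow, eval_X, Matrix.cons_val_zero,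
      Matrix.cons_val_one, Matrix.cons_val]
    linear_combination (w 1 ^ 3) * hr1 + (w 0 * w 1 ^ 2 * r ^ 2) * hm

end CR

end MPb07157
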