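import Pool.Agent.Lib.MP_b07157_agC5S.Main
import Pool.Agent.Lib.MP_b07157_agLC.Main

/-!
# Forms in four variables with mild singularities, all degrees
-/

noncomputable section

namespace MPb07157

open MvPolynomial

/-- **The strong monodromy conjecture, local version**, for the homogeneous polynomials `f` of degree
`d ≥ 1` in four variables with `|f|^(-7/4)` locally integrable outside the origin (for `d ≤ 3` without
this condition). -/
theorem SmcLoc.of_lctCone' {f : MvPolynomial (Fin 4) ℂ} (hf : f ≠ 0) {d : ℕ} (hd : 0 < d)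
    (hh : f.IsHomogeneous d)
    (h : ∀ p, p ≠ 0 → eval p f = 0 → (∀ i, eval p (pderiv i f) = 0) → ∃ r : ℝ, 0 < r ∧
      MeasureTheory.IntegrableOn (fun x : Fin 4 → ℂ => ‖eval x f‖ ^ (-(2 * (7 / 8 : ℝ))))
        (Metric.ball p r)) :
    SmcLoc f := by
  rcases Nat.lt_or_ge d 4 with h4 | h4
  · refine SmcLoc.of_deg3_four hf ?_ (hh.totalDegree_le.trans (by omega))
    by_contra h0
    have h1 := hh h0
    rw [map_zero] at h1
    omega
  · exact SmcLoc.of_lctCone hf h4 hh h

end MPb07157
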