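import Pool.Agent.Lib.MP_b07157_agCR.Defs
import Pool.Agent.Lib.MP_b07157_agCS.T0

/-!
# Linear changes of the last three coordinates, and shifts
-/

noncomputable section

namespace MPb07157

open MvPolynomial

namespace CR

open CS

/-- The composition of a polynomial with a linear map. -/
def M1.lsub {n m : ℕ} (L : (Fin n → ℂ) →ₗ[ℂ] (Fin m → ℂ)) (p : MvPolynomial (Fin m) ℂ) :
    MvPolynomial (Fin n) ℂ :=
  aeval (fun i => ∑ j, C (L (fun l => if j = l then 1 else 0) i) * X j) p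

theorem M1.eval_lsub {n m : ℕ} (L : (Fin n → ℂ) →ₗ[ℂ] (Fin m → ℂ))
    (p : MvPolynomial (Fin m) ℂ) (w : Fin n → ℂ) : eval w (M1.lsub L p) = eval (L w) p := by
  unfold M1.lsub
  induction p using MvPolynomial.induction_on with
  | C a => simp
  | add p q hp hq => rw [map_add, map_add, map_add, hp, hq]
  | mul_X p i hp =>
    rw [map_mul, map_mul, map_mul, hp, aeval_X, eval_X, map_sum]
    congr 1
    have h := congrFun (LinearMap.pi_apply_eq_sum_univ L w) i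
    rw [h, Finset.sum_apply]
    refine Finset.sum_congr rfl fun j _ => ?_
    rw [map_mul, eval_C, eval_X, Pi.smul_apply, smul_eq_mul, mul_comm]

theorem M1.lsub_hom {n m d : ℕ} (L : (Fin n → ℂ) →ₗ[ℂ] (Fin m → ℂ))
    {p : MvPolynomial (Fin m) ℂ} (hp : p.IsHomogeneous d) : (M1.lsub L p).IsHomogeneous d := by
  have h := hp.aeval (n := 1)
    (fun i => ∑ j, C (L (fun l => if j = l then 1 else 0) i) * X j)
    (fun i => IsHomogeneous.sum _ _ _ fun j _ => (isHomogeneous_X ℂ j).C_mul _)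
  rw [one_mul] at h
  exact h

/-- `(x_0, x) ↦ (x_0, e x)`. -/
def M1.ext (e : (Fin 3 → ℂ) ≃ₗ[ℂ] (Fin 3 → ℂ)) : (Fin 4 → ℂ) ≃ₗ[ℂ] (Fin 4 → ℂ) :=
  ((Fin.consLinearEquiv ℂ (fun _ : Fin 4 => ℂ)).symm.trans
    (LinearEquiv.prodCongr (LinearEquiv.refl ℂ ℂ) e)).trans
      (Fin.consLinearEquiv ℂ (fun _ : Fin 4 => ℂ))

theorem M1.ext_zero (e : (Fin 3 → ℂ) ≃ₗ[ℂ] (Fin 3 → ℂ)) (w : Fin 4 → ℂ) :
    M1.ext e w 0 = w 0 := rfl

theorem M1.ext_succ (e : (Fin 3 → ℂ) ≃ₗ[ℂ] (Fin 3 → ℂ)) (w : Fin 4 → ℂ) :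
    (M1.ext e w) ∘ Fin.succ = e (w ∘ Fin.succ) := rfl

theorem M1.eval_gR (R : MvPolynomial (Fin 4) ℂ) (q c : MvPolynomial (Fin 3) ℂ) (w : Fin 4 → ℂ) :
    eval w (gR R q c) = w 0 ^ 2 * (1 + eval w R) + w 0 * eval (w ∘ Fin.succ) q +
      eval (w ∘ Fin.succ) c := by
  unfold gR
  simp only [map_add, map_mul, map_pow, map_one, eval_X, eval_rename]

/-- The same, when the change of coordinates is explicit and fixes `c`. -/
theorem gR_lin' {R : MvPolynomial (Fin 4) ℂ} (hR : R.IsHomogeneous 1)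
    {q q' c c' : MvPolynomial (Fin 3) ℂ} (e : (Fin 3 → ℂ) ≃ₗ[ℂ] (Fin 3 → ℂ))
    (hc : ∀ w, eval (e w) c = eval w c') (hq : ∀ w, eval (e w) q = eval w q') :
    ∃ R' : MvPolynomial (Fin 4) ℂ, R'.IsHomogeneous 1 ∧ LinEq (gR R q c) (gR R' q' c') := by
  refine ⟨M1.lsub (M1.ext e : (Fin 4 → ℂ) →ₗ[ℂ] (Fin 4 → ℂ)) R, M1.lsub_hom _ hR,
    M1.ext e, fun w => ?_⟩
  rw [M1.eval_gR, M1.eval_gR, M1.ext_zero, M1.ext_succ, hc, hq, M1.eval_lsub]
  rfl

/-- A linear change of the last three coordinates: with `e : ℂ³ ≃ ℂ³`, `c ∘ e = c'`, the linear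
equivalence `(x_0, x) ↦ (x_0, e x)` carries `gR R q c` to `gR (R ∘ (id, e)) (q ∘ e) c'`. -/
theorem gR_lin {R : MvPolynomial (Fin 4) ℂ} (hR : R.IsHomogeneous 1)
    {q c c' : MvPolynomial (Fin 3) ℂ} (hq : q.IsHomogeneous 2) (h : LinEq c c') :
    ∃ (R' : MvPolynomial (Fin 4) ℂ) (q' : MvPolynomial (Fin 3) ℂ), R'.IsHomogeneous 1 ∧
      q'.IsHomogeneous 2 ∧ LinEq (gR R q c) (gR R' q' c') := by
  obtain ⟨e, he⟩ := h
  obtain ⟨R', h1, h2⟩ := gR_lin' hR (q := q)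
    (q' := M1.lsub (e : (Fin 3 → ℂ) →ₗ[ℂ] (Fin 3 → ℂ)) q) e he fun w => by
      rw [M1.eval_lsub]
      rfl
  exact ⟨R', _, h1, M1.lsub_hom _ hq, h2⟩

/-- Quadratic forms and symmetric bilinear forms. -/
theorem M1.exists_quad {q : MvPolynomial (Fin 3) ℂ} (hq : q.IsHomogeneous 2) :
    ∃ s : Fin 3 → Fin 3 → ℂ, (∀ i j, s i j = s j i) ∧
      ∀ p, eval p q = ∑ i, ∑ j, s i j * (p i * p j) := by
  refine ⟨fun i j => coeff 0 (pderiv j (pderiv i q)) / 2, fun i j => ?_, fun p => ?_⟩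
  · simp only
    rw [T0.comm j i]
  · have hconst : ∀ i j, pderiv j (pderiv i q) = C (coeff 0 (pderiv j (pderiv i q))) := by
      intro i j
      have h1 : (pderiv j (pderiv i q)).IsHomogeneous (2 - 1 - 1) := hq.pderiv.pderiv
      have h2 : (pderiv j (pderiv i q)).totalDegree = 0 := Nat.le_zero.1 h1.totalDegree_le
      exact totalDegree_eq_zero_iff_eq_C.1 h2
    have e1 : ∑ i, X i * pderiv i q = 2 • q := hq.sum_X_mul_pderiv
    have e2 : ∀ i, ∑ j, X j * pderiv j (pderiv i q) = (2 - 1) • pderiv i q := fun i =>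
      (hq.pderiv (i := i)).sum_X_mul_pderiv
    have f1 := congrArg (eval p) e1
    rw [map_sum, map_nsmul] at f1
    have f2 : ∀ i, eval p (pderiv i q) = ∑ j, p j * coeff 0 (pderiv j (pderiv i q)) := by
      intro i
      have h := congrArg (eval p) (e2 i)
      rw [map_sum] at h
      rw [show (2 - 1) • pderiv i q = pderiv i q from one_smul ℕ _] at h
      rw [← h]
      refine Finset.sum_congr rfl fun j _ => ?_
      rw [map_mul, eval_X, hconst i j, eval_C, coeff_C]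
      simp
    have f3 : (2 : ℂ) * eval p q = ∑ i, ∑ j, p i * (p j * coeff 0 (pderiv j (pderiv i q))) := by
      rw [nsmul_eq_mul] at f1
      have f1' : ∑ i, eval p (X i * pderiv i q) = (2 : ℂ) * eval p q := by
        rw [f1]
        norm_num
      rw [← f1']
      refine Finset.sum_congr rfl fun i _ => ?_
      rw [map_mul, eval_X, f2 i, Finset.mul_sum]
    have f4 : eval p q = (2 : ℂ)⁻¹ * (2 * eval p q) := by
      rw [← mul_assoc]
      norm_num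
    rw [f4, f3, Finset.mul_sum]
    refine Finset.sum_congr rfl fun i _ => ?_
    rw [Finset.mul_sum]
    refine Finset.sum_congr rfl fun j _ => ?_
    ring

/-- Quadratic forms in three variables. -/
theorem exists_qf {q : MvPolynomial (Fin 3) ℂ} (hq : q.IsHomogeneous 2) : ∃ k, q = qf k := by
  obtain ⟨s, hs, he⟩ := M1.exists_quad hq
  refine ⟨![s 0 0, s 1 1, s 2 2, 2 * s 1 2, 2 * s 0 2, 2 * s 0 1], ?_⟩
  refine MvPolynomial.funext fun p => ?_
  rw [he p]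
  simp only [qf, map_add, map_mul, map_pow, eval_C, eval_X, Fin.sum_univ_three]
  have h1 : (![s 0 0, s 1 1, s 2 2, 2 * s 1 2, 2 * s 0 2, 2 * s 0 1] : Fin 6 → ℂ) 0 = s 0 0 := rfl
  have h2 : (![s 0 0, s 1 1, s 2 2, 2 * s 1 2, 2 * s 0 2, 2 * s 0 1] : Fin 6 → ℂ) 1 = s 1 1 := rfl
  have h3 : (![s 0 0, s 1 1, s 2 2, 2 * s 1 2, 2 * s 0 2, 2 * s 0 1] : Fin 6 → ℂ) 2 = s 2 2 := rfl
  have h4 : (![s 0 0, s 1 1, s 2 2, 2 * s 1 2, 2 * s 0 2, 2 * s 0 1] : Fin 6 → ℂ) 3 =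
    2 * s 1 2 := rfl
  have h5 : (![s 0 0, s 1 1, s 2 2, 2 * s 1 2, 2 * s 0 2, 2 * s 0 1] : Fin 6 → ℂ) 4 =
    2 * s 0 2 := rfl
  have h6 : (![s 0 0, s 1 1, s 2 2, 2 * s 1 2, 2 * s 0 2, 2 * s 0 1] : Fin 6 → ℂ) 5 =
    2 * s 0 1 := rfl
  rw [h1, h2, h3, h4, h5, h6, hs 1 0, hs 2 0, hs 2 1]
  ring

/-- The shift. -/
def M1.shift (a : Fin 3 → ℂ) : (Fin 4 → ℂ) ≃ₗ[ℂ] (Fin 4 → ℂ) where
  toFun w := Fin.cons (w 0) fun i => w i.succ + a i * w 0
  invFun w := Fin.cons (w 0) fun i => w i.succ - a i * w 0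
  map_add' x y := by
    funext i
    refine Fin.cases ?_ (fun i => ?_) i
    · rfl
    · simp only [Fin.cons_succ, Pi.add_apply]
      ring
  map_smul' r x := by
    funext i
    refine Fin.cases ?_ (fun i => ?_) i
    · rfl
    · simp only [Fin.cons_succ, Pi.smul_apply, smul_eq_mul, RingHom.id_apply]
      ring
  left_inv x := by
    funext i
    refine Fin.cases ?_ (fun i => ?_) i
    · rfl
    · simp only [Fin.cons_succ, Fin.cons_zero]
      ring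
  right_inv x := by
    funext i
    refine Fin.cases ?_ (fun i => ?_) i
    · rfl
    · simp only [Fin.cons_succ, Fin.cons_zero]
      ring

/-- **Shifts** `x_{i+1} → x_{i+1} + a_i x_0`:
`c(x + a x_0) = c + x_0 ∑ a_i ∂_i c + x_0² (…)`, `q(x + a x_0) = q + x_0 (…)`. The new `R'` is
`R(x_0, x + a x_0) + ∑ a_i ∂_i q + x_0 q(a) + (1/2) ∑ a_i a_j ∂_i ∂_j c + x_0 c(a)`, a linear form. -/
theorem gR_shift {R : MvPolynomial (Fin 4) ℂ} (hR : R.IsHomogeneous 1)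
    {q c : MvPolynomial (Fin 3) ℂ} (hq : q.IsHomogeneous 2) (hc : c.IsHomogeneous 3)
    (a : Fin 3 → ℂ) : ∃ R' : MvPolynomial (Fin 4) ℂ, R'.IsHomogeneous 1 ∧
      LinEq (gR R q c) (gR R' (q + ∑ i, C (a i) * pderiv i c) c) := by
  obtain ⟨s, hs, he⟩ := M1.exists_quad hq
  obtain ⟨t, ht, rfl⟩ := exists_cub hc
  let T : MvPolynomial (Fin 4) ℂ :=
    (∑ j : Fin 3, C (2 * ∑ i, s i j * a i) * X j.succ) + C (∑ i, ∑ j, s i j * (a i * a j)) * X 0 +
      ((∑ l : Fin 3, C (3 * ∑ i, ∑ j, t i j l * (a i * a j)) * X l.succ) +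
        C (tri t a a a) * X 0)
  have hT : T.IsHomogeneous 1 := by
    refine IsHomogeneous.add (IsHomogeneous.add ?_ ?_) (IsHomogeneous.add ?_ ?_)
    · exact IsHomogeneous.sum _ _ _ fun j _ => (isHomogeneous_X ℂ _).C_mul _
    · exact (isHomogeneous_X ℂ _).C_mul _
    · exact IsHomogeneous.sum _ _ _ fun j _ => (isHomogeneous_X ℂ _).C_mul _
    · exact (isHomogeneous_X ℂ _).C_mul _
  refine ⟨M1.lsub (M1.shift a : (Fin 4 → ℂ) →ₗ[ℂ] (Fin 4 → ℂ)) R + T,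
    (M1.lsub_hom _ hR).add hT, M1.shift a, fun w => ?_⟩
  have h0 : M1.shift a w 0 = w 0 := rfl
  have h1 : (M1.shift a w) ∘ Fin.succ = fun i => w i.succ + a i * w 0 := rfl
  have h5 : eval w (M1.lsub (M1.shift a : (Fin 4 → ℂ) →ₗ[ℂ] (Fin 4 → ℂ)) R + T) =
      eval (M1.shift a w) R + eval w T := by
    rw [map_add, M1.eval_lsub]
    rfl
  have h6 : eval (w ∘ Fin.succ) (q + ∑ i, C (a i) * pderiv i (cub t)) =
      ∑ i : Fin 3, ∑ j : Fin 3, s i j * (w i.succ * w j.succ) +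
        eval (w ∘ Fin.succ) (∑ i, C (a i) * pderiv i (cub t)) := by
    rw [map_add, he]
    rfl
  rw [M1.eval_gR, M1.eval_gR, h0, h1, h5, h6, he, eval_cub, eval_cub]
  have h2 : eval (w ∘ Fin.succ) (∑ i, C (a i) * pderiv i (cub t)) =
      ∑ i, a i * (3 * ∑ j, ∑ l, t i j l * (w j.succ * w l.succ)) := by
    rw [map_sum]
    refine Finset.sum_congr rfl fun i _ => ?_
    rw [map_mul, eval_C, eval_pderiv_cub ht]
    rfl
  have h3 : eval w T = (∑ j : Fin 3, (2 * ∑ i, s i j * a i) * w j.succ) +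
      (∑ i, ∑ j, s i j * (a i * a j)) * w 0 +
      ((∑ l : Fin 3, (3 * ∑ i, ∑ j, t i j l * (a i * a j)) * w l.succ) +
        (tri t a a a) * w 0) := by
    simp only [T, map_add, map_sum, map_mul, eval_C, eval_X]
  rw [h2, h3]
  generalize eval (M1.shift a w) R = r
  have ht1 := ht.1
  have ht2 := ht.2
  have s10 := hs 1 0
  have s20 := hs 2 0
  have s21 := hs 2 1
  have t010 : t 0 1 0 = t 0 0 1 := ht2 0 1 0
  have t100 : t 1 0 0 = t 0 0 1 := by rw [ht1 1 0 0, t010]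
  have t020 : t 0 2 0 = t 0 0 2 := ht2 0 2 0
  have t200 : t 2 0 0 = t 0 0 2 := by rw [ht1 2 0 0, t020]
  have t101 : t 1 0 1 = t 0 1 1 := ht1 1 0 1
  have t110 : t 1 1 0 = t 0 1 1 := by rw [ht2 1 1 0, t101]
  have t202 : t 2 0 2 = t 0 2 2 := ht1 2 0 2
  have t220 : t 2 2 0 = t 0 2 2 := by rw [ht2 2 2 0, t202]
  have t121 : t 1 2 1 = t 1 1 2 := ht2 1 2 1
  have t211 : t 2 1 1 = t 1 1 2 := by rw [ht1 2 1 1, t121]
  have t212 : t 2 1 2 = t 1 2 2 := ht1 2 1 2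
  have t221 : t 2 2 1 = t 1 2 2 := by rw [ht2 2 2 1, t212]
  have t021 : t 0 2 1 = t 0 1 2 := ht2 0 2 1
  have t102 : t 1 0 2 = t 0 1 2 := ht1 1 0 2
  have t120 : t 1 2 0 = t 0 1 2 := by rw [ht2 1 2 0, t102]
  have t201 : t 2 0 1 = t 0 1 2 := by rw [ht1 2 0 1, t021]
  have t210 : t 2 1 0 = t 0 1 2 := by rw [ht2 2 1 0, t201]
  simp only [tri, Fin.sum_univ_three, Function.comp_apply, s10, s20, s21, t010, t100, t020, t200,
    t101, t110, t202, t220, t121, t211, t212, t221, t021, t102, t120, t201, t210]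
  ring

end CR

end MPb07157
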